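import Mathlib

set_option autoImplicit false

open MeasureTheory Filter Set Topology
open scoped Pointwise ENNReal

namespace Pool.Agent.Helper482.NA

noncomputable section

/-- A set `A` in a group with a measure is null-additive if `A + N` is null for every null `N`. -/
def NullAdditive {G : Type} [Add G] [MeasureSpace G] (A : Set G) : Prop :=
  ∀ N : Set G, volume N = 0 → volume (A + N) = 0

/-- The open set of the reals `x` with `x * 2^n` at distance `< 1` from an integer whose residue
modulo `2^ℓ` lies in `A`. -/
def PSet (ℓ n : ℕ) (A : Finset (ZMod (2 ^ ℓ))) : Set ℝ :=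
  {x : ℝ | ∃ j : ℤ, ((j : ZMod (2 ^ ℓ)) ∈ A) ∧ |x * 2 ^ n - (j : ℝ)| < 1}

end

end Pool.Agent.Helper482.NA
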