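import Pool.Agent.Helper482.NA.Defs

set_option autoImplicit false

namespace Pool.Agent.Helper482.NA.M_a1

open Pool.Agent.Helper482.NA
open MeasureTheory Filter Set Topology
open scoped Pointwise ENNReal

noncomputable section

theorem pset_open (ℓ n : ℕ) (A : Finset (ZMod (2 ^ ℓ))) : IsOpen (PSet ℓ n A) := by
  have h : PSet ℓ n A = ⋃ j : ℤ, ⋃ _ : ((j : ZMod (2 ^ ℓ)) ∈ A), {x : ℝ | |x * 2 ^ n - (j : ℝ)| < 1} := by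
    ext x
    simp only [PSet, Set.mem_iUnion]
    constructor
    · rintro ⟨j, hj, hx⟩
      exact ⟨j, hj, hx⟩
    · rintro ⟨j, hj, hx⟩
      exact ⟨j, hj, hx⟩
  rw [h]
  refine isOpen_iUnion fun j => isOpen_iUnion fun _ => ?_
  exact isOpen_lt (by fun_prop) continuous_const

theorem pset_cover (ℓ n : ℕ) (hln : ℓ ≤ n) (A : Finset (ZMod (2 ^ ℓ))) (R : ℕ) :
    PSet ℓ n A ∩ Icc (-(R : ℝ)) (R : ℝ) ⊆
      ⋃ i ∈ A ×ˢ Finset.Icc (-(R * 2 ^ (n - ℓ) : ℤ)) (R * 2 ^ (n - ℓ)),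
        Ioo ((((i.1.val : ℤ) + i.2 * 2 ^ ℓ : ℤ) - 1 : ℝ) / 2 ^ n)
          ((((i.1.val : ℤ) + i.2 * 2 ^ ℓ : ℤ) + 1 : ℝ) / 2 ^ n) := by
  rintro x ⟨⟨j, hjA, hj⟩, hx1, hx2⟩
  have h2n : (0 : ℝ) < 2 ^ n := by positivity
  have h2l : (0 : ℤ) < 2 ^ ℓ := by positivity
  obtain ⟨hj1, hj2⟩ := abs_lt.mp hj
  have hxu : x * 2 ^ n ≤ R * 2 ^ n := mul_le_mul_of_nonneg_right hx2 h2n.le
  have hxl : -(R : ℝ) * 2 ^ n ≤ x * 2 ^ n := mul_le_mul_of_nonneg_right hx1 h2n.le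
  have hju : j ≤ (R : ℤ) * 2 ^ n := by
    have h1 : (j : ℝ) < R * 2 ^ n + 1 := by linarith
    have h2 : j < (R : ℤ) * 2 ^ n + 1 := by exact_mod_cast h1
    omega
  have hjl : -((R : ℤ) * 2 ^ n) ≤ j := by
    have h1 : -((R : ℝ) * 2 ^ n) - 1 < (j : ℝ) := by linarith
    have h2 : -((R : ℤ) * 2 ^ n) - 1 < j := by exact_mod_cast h1
    omega
  have hpow : (2 : ℤ) ^ n = 2 ^ (n - ℓ) * 2 ^ ℓ := by
    rw [← pow_add, Nat.sub_add_cancel hln]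
  have hval : (((j : ZMod (2 ^ ℓ)).val : ℤ)) = j % 2 ^ ℓ := by
    rw [ZMod.val_intCast]
    push_cast
    rfl
  have hjj : (((j : ZMod (2 ^ ℓ)).val : ℤ)) + (j / 2 ^ ℓ) * 2 ^ ℓ = j := by
    rw [hval, mul_comm]
    exact Int.emod_add_mul_ediv j (2 ^ ℓ)
  refine Set.mem_iUnion₂.2 ⟨((j : ZMod (2 ^ ℓ)), j / 2 ^ ℓ), ?_, ?_⟩
  · rw [Finset.mem_product, Finset.mem_Icc]
    refine ⟨hjA, ?_, ?_⟩
    · apply Int.le_ediv_of_mul_le h2l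
      rw [hpow] at hjl
      linarith
    · apply Int.ediv_le_of_le_mul h2l
      rw [hpow] at hju
      linarith
  · show x ∈ Ioo ((((((j : ZMod (2 ^ ℓ)).val : ℤ)) + (j / 2 ^ ℓ) * 2 ^ ℓ : ℤ) - 1 : ℝ) / 2 ^ n)
          ((((((j : ZMod (2 ^ ℓ)).val : ℤ)) + (j / 2 ^ ℓ) * 2 ^ ℓ : ℤ) + 1 : ℝ) / 2 ^ n)
    rw [hjj]
    constructor
    · rw [div_lt_iff₀ h2n]
      linarith
    · rw [lt_div_iff₀ h2n]
      linarith

theorem pset_measure (ℓ n : ℕ) (hln : ℓ ≤ n) (A : Finset (ZMod (2 ^ ℓ))) (R : ℕ) :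
    volume (PSet ℓ n A ∩ Icc (-(R : ℝ)) (R : ℝ))
      ≤ ENNReal.ofReal ((4 * (R : ℝ) + 20) * ((A.card : ℝ) / 2 ^ ℓ)) := by
  refine (measure_mono (pset_cover ℓ n hln A R)).trans ?_
  refine (measure_biUnion_finset_le _ _).trans ?_
  have h2n : (0 : ℝ) < 2 ^ n := by positivity
  have hterm : ∀ i ∈ A ×ˢ Finset.Icc (-(R * 2 ^ (n - ℓ) : ℤ)) (R * 2 ^ (n - ℓ)),
      volume (Ioo ((((i.1.val : ℤ) + i.2 * 2 ^ ℓ : ℤ) - 1 : ℝ) / 2 ^ n)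
          ((((i.1.val : ℤ) + i.2 * 2 ^ ℓ : ℤ) + 1 : ℝ) / 2 ^ n)) = ENNReal.ofReal (2 / 2 ^ n) := by
    intro i _
    rw [Real.volume_Ioo, ← sub_div]
    congr 2
    ring
  rw [Finset.sum_congr rfl hterm, Finset.sum_const, nsmul_eq_mul, ← ENNReal.ofReal_natCast,
    ← ENNReal.ofReal_mul (Nat.cast_nonneg _)]
  apply ENNReal.ofReal_le_ofReal
  rw [Finset.card_product, Int.card_Icc]
  have hK : ((R * 2 ^ (n - ℓ) : ℤ) + 1 - (-(R * 2 ^ (n - ℓ) : ℤ))).toNat =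
      2 * (R * 2 ^ (n - ℓ)) + 1 := by
    have : (R * 2 ^ (n - ℓ) : ℤ) = ((R * 2 ^ (n - ℓ) : ℕ) : ℤ) := by push_cast; ring
    rw [this]
    omega
  rw [hK]
  push_cast
  have hpow : (2 : ℝ) ^ n = 2 ^ (n - ℓ) * 2 ^ ℓ := by
    rw [← pow_add, Nat.sub_add_cancel hln]
  have ht : (1 : ℝ) ≤ 2 ^ (n - ℓ) := one_le_pow₀ (by norm_num)
  have hL : (0 : ℝ) < 2 ^ ℓ := by positivity
  have ht0 : (0 : ℝ) < 2 ^ (n - ℓ) := by positivity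
  rw [hpow]
  set t : ℝ := 2 ^ (n - ℓ)
  set L : ℝ := 2 ^ ℓ
  have hA0 : (0 : ℝ) ≤ (A.card : ℝ) / L := by positivity
  have e : (A.card : ℝ) * (2 * (R * t) + 1) * (2 / (t * L)) =
      (4 * R + 2 / t) * ((A.card : ℝ) / L) := by
    field_simp
    ring
  rw [e]
  apply mul_le_mul_of_nonneg_right _ hA0
  have h3 : 2 / t ≤ 2 := div_le_self (by norm_num) ht
  linarith

end

end Pool.Agent.Helper482.NA.M_a1
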