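import Pool.Agent.Helper482.NA.Defs
import Pool.Agent.Helper482.NA.M_a1

set_option autoImplicit false

namespace Pool.Agent.Helper482.NA.M_a2

open Pool.Agent.Helper482.NA
open Pool.Agent.Helper482.NA.M_a1
open MeasureTheory Filter Set Topology
open scoped Pointwise ENNReal

noncomputable section

theorem limsup_null (ℓ n : ℕ → ℕ) (hln : ∀ k, ℓ k ≤ n k) (A : ∀ k, Finset (ZMod (2 ^ (ℓ k))))
    (hA : ∀ k, 2 ^ k * (A k).card ≤ 2 * 2 ^ (ℓ k)) :
    volume {x : ℝ | ∃ᶠ k in atTop, x ∈ PSet (ℓ k) (n k) (A k)} = 0 := by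
  have key : ∀ R : ℕ, volume {x : ℝ | ∃ᶠ k in atTop,
      x ∈ PSet (ℓ k) (n k) (A k) ∩ Icc (-(R : ℝ)) (R : ℝ)} = 0 := by
    intro R
    apply measure_setOf_frequently_eq_zero
    have h1 : ∀ k, volume {x : ℝ | x ∈ PSet (ℓ k) (n k) (A k) ∩ Icc (-(R : ℝ)) (R : ℝ)} ≤
        ENNReal.ofReal ((4 * (R : ℝ) + 20) * (2 * (1 / 2) ^ k)) := by
      intro k
      refine (pset_measure (ℓ k) (n k) (hln k) (A k) R).trans ?_
      apply ENNReal.ofReal_le_ofReal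
      apply mul_le_mul_of_nonneg_left _ (by positivity)
      rw [one_div, inv_pow, ← div_eq_mul_inv, div_le_div_iff₀ (by positivity) (by positivity)]
      have := hA k
      have h2 : ((2 : ℝ) ^ k * ((A k).card : ℝ)) ≤ 2 * 2 ^ (ℓ k) := by exact_mod_cast this
      linarith
    have h3 : Summable (fun k : ℕ => (4 * (R : ℝ) + 20) * (2 * (1 / 2 : ℝ) ^ k)) :=
      (summable_geometric_two.mul_left 2).mul_left _
    exact ne_top_of_le_ne_top h3.tsum_ofReal_ne_top (ENNReal.tsum_le_tsum h1)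
  refine measure_mono_null ?_ (measure_iUnion_null key)
  intro x hx
  obtain ⟨R, hR⟩ := exists_nat_ge |x|
  rw [mem_iUnion]
  refine ⟨R, ?_⟩
  have hx' : ∃ᶠ k in atTop, x ∈ PSet (ℓ k) (n k) (A k) := hx
  show ∃ᶠ k in atTop, x ∈ PSet (ℓ k) (n k) (A k) ∩ Icc (-(R : ℝ)) (R : ℝ)
  exact hx'.mono (fun k hk => ⟨hk, abs_le.1 hR⟩)

end

end Pool.Agent.Helper482.NA.M_a2
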