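import Pool.Agent.Helper482.NA.Defs

set_option autoImplicit false

namespace Pool.Agent.Helper482.NA.M_a3

open Pool.Agent.Helper482.NA
open MeasureTheory Filter Set Topology
open scoped Pointwise ENNReal

noncomputable section

theorem baire_step (B : ℕ → Set ℝ) (hB : ∀ k, IsOpen (B k))
    (hN : volume {x : ℝ | ∃ᶠ k in atTop, x ∈ B k} = 0) (Y : Set ℝ) (hY : NullAdditive Y) :
    ∃ E : ℕ → Set ℝ, (∀ e, 0 < volume (E e)) ∧
      ∀ y ∈ Y, ∃ e m : ℕ, ∀ k ≥ m, ∀ x ∈ E e, x - y ∉ B k := by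
  classical
  set N : Set ℝ := {x : ℝ | ∃ᶠ k in atTop, x ∈ B k} with hNdef
  have hYN : volume (Y + N) = 0 := hY N hN
  set T := toMeasurable volume (Y + N) with hT
  have hTm : MeasurableSet T := measurableSet_toMeasurable _ _
  have hT0 : volume T = 0 := by rw [hT, measure_toMeasurable]; exact hYN
  have hsub : Y + N ⊆ T := subset_toMeasurable _ _
  have hpos : (0 : ℝ≥0∞) < volume (Icc (0 : ℝ) 1 \ T) := by
    rw [measure_sdiff_null hT0, Real.volume_Icc]
    norm_num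
  obtain ⟨K0, hK0s, hK0c, hK0p⟩ :=
    (measurableSet_Icc.diff hTm : MeasurableSet (Icc (0 : ℝ) 1 \ T)).exists_lt_isCompact hpos
  -- the bad part
  set Bad : Set ℝ := ⋃ p : ℚ × ℚ, if volume (K0 ∩ Ioo (p.1 : ℝ) (p.2 : ℝ)) = 0 then
    Ioo (p.1 : ℝ) (p.2 : ℝ) else ∅ with hBad
  have hBadO : IsOpen Bad := by
    refine isOpen_iUnion fun p => ?_
    split_ifs
    · exact isOpen_Ioo
    · exact isOpen_empty
  have hBad0 : volume (K0 ∩ Bad) = 0 := by
    rw [hBad, inter_iUnion]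
    refine measure_iUnion_null fun p => ?_
    split_ifs with h
    · exact h
    · simp
  set K := K0 \ Bad with hK
  have hKc : IsCompact K := hK0c.diff hBadO
  have hKpos : 0 < volume K := by
    have h1 : volume K0 ≤ volume (K0 ∩ Bad) + volume K := by
      refine (measure_mono ?_).trans (measure_union_le _ _)
      intro x hx
      by_cases h : x ∈ Bad
      · exact Or.inl ⟨hx, h⟩
      · exact Or.inr ⟨hx, h⟩
    rw [hBad0, zero_add] at h1
    exact hK0p.trans_le h1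
  have hKI : ∀ p : ℚ × ℚ, (K ∩ Ioo (p.1 : ℝ) (p.2 : ℝ)).Nonempty →
      0 < volume (K ∩ Ioo (p.1 : ℝ) (p.2 : ℝ)) := by
    intro p hne
    obtain ⟨x, hx, hxI⟩ := hne
    have h0 : volume (K0 ∩ Ioo (p.1 : ℝ) (p.2 : ℝ)) ≠ 0 := by
      intro h0
      apply hx.2
      rw [hBad, mem_iUnion]
      exact ⟨p, by rw [if_pos h0]; exact hxI⟩
    have h1 : volume (K0 ∩ Ioo (p.1 : ℝ) (p.2 : ℝ)) ≤
        volume (K0 ∩ Bad) + volume (K ∩ Ioo (p.1 : ℝ) (p.2 : ℝ)) := by
      refine (measure_mono ?_).trans (measure_union_le _ _)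
      intro x hx
      by_cases h : x ∈ Bad
      · exact Or.inl ⟨hx.1, h⟩
      · exact Or.inr ⟨⟨hx.1, h⟩, hx.2⟩
    rw [hBad0, zero_add] at h1
    exact (pos_iff_ne_zero.2 h0).trans_le h1
  obtain ⟨f, hf⟩ := exists_surjective_nat (ℚ × ℚ)
  refine ⟨fun e => if (K ∩ Ioo ((f e).1 : ℝ) ((f e).2 : ℝ)).Nonempty then
    K ∩ Ioo ((f e).1 : ℝ) ((f e).2 : ℝ) else K, ?_, ?_⟩
  · intro e
    dsimp only
    split_ifs with h
    · exact hKI _ h
    · exact hKpos
  · intro y hy
    have hKne : K.Nonempty := nonempty_of_measure_ne_zero hKpos.ne'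
    have hKy : ∀ x ∈ K, ∃ m : ℕ, ∀ k ≥ m, x - y ∉ B k := by
      intro x hx
      have hxT : x ∉ T := (hK0s hx.1).2
      have hxN : x - y ∉ N := by
        intro h
        apply hxT
        apply hsub
        exact ⟨y, hy, x - y, h, by simp⟩
      rw [hNdef, mem_setOf_eq, not_frequently, eventually_atTop] at hxN
      exact hxN
    haveI : CompactSpace K := isCompact_iff_compactSpace.1 hKc
    haveI : Nonempty K := hKne.to_subtype
    obtain ⟨m, hm⟩ := nonempty_interior_of_iUnion_of_closed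
      (f := fun m : ℕ => {x : K | ∀ k ≥ m, (x : ℝ) - y ∉ B k}) (fun m => by
        have : {x : K | ∀ k ≥ m, (x : ℝ) - y ∉ B k} =
            ⋂ k ≥ m, (fun x : K => (x : ℝ) - y) ⁻¹' (B k)ᶜ := by
          ext x; simp
        rw [this]
        refine isClosed_biInter fun k _ => ?_
        exact (hB k).isClosed_compl.preimage (by fun_prop)) (by
        rw [eq_univ_iff_forall]
        intro x
        rw [mem_iUnion]
        exact hKy x x.2)
    obtain ⟨x, hx⟩ := hm
    rw [mem_interior] at hx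
    obtain ⟨V, hVs, hVo, hxV⟩ := hx
    obtain ⟨U, hU, rfl⟩ := isOpen_induced_iff.1 hVo
    obtain ⟨I, hI, hxI, hIU⟩ := Real.isTopologicalBasis_Ioo_rat.exists_subset_of_mem_open
      (show (x : ℝ) ∈ U from hxV) hU
    simp only [mem_iUnion, mem_singleton_iff] at hI
    obtain ⟨p, q, _, rfl⟩ := hI
    obtain ⟨e, he⟩ := hf (p, q)
    refine ⟨e, m, fun k hk z hz => ?_⟩
    have hne : (K ∩ Ioo ((f e).1 : ℝ) ((f e).2 : ℝ)).Nonempty := by
      rw [he]; exact ⟨x, x.2, hxI⟩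
    simp only [if_pos hne] at hz
    rw [he] at hz
    exact hVs (show (⟨z, hz.1⟩ : K) ∈ Subtype.val ⁻¹' U from hIU hz.2) k hk

end

end Pool.Agent.Helper482.NA.M_a3
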