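import Pool.Agent.Helper482.NA.Defs

set_option autoImplicit false

namespace Pool.Agent.Helper482.NA.M_a4

open Pool.Agent.Helper482.NA
open MeasureTheory Filter Set Topology
open scoped Pointwise ENNReal

noncomputable section

theorem density (E : Set ℝ) (hE : 0 < volume E) :
    ∃ s0 : ℕ, ∀ s ≥ s0, ∃ i : ℤ, ENNReal.ofReal ((1 / 2 : ℝ) ^ s / 2)
      < volume (E ∩ Ico ((i : ℝ) / 2 ^ s) (((i : ℝ) + 1) / 2 ^ s)) := by
  have hae := IsUnifLocDoublingMeasure.ae_tendsto_measure_inter_div (μ := (volume : Measure ℝ)) E 1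
  have hne : (ae ((volume : Measure ℝ).restrict E)).NeBot := by
    rw [ae_neBot]
    intro h
    rw [Measure.restrict_eq_zero] at h
    exact hE.ne' h
  obtain ⟨x, hx⟩ := hae.exists
  set δ : ℕ → ℝ := fun s => (1 / 2 : ℝ) ^ s / 2 with hδ
  set w : ℕ → ℝ := fun s => ((⌊x * 2 ^ s⌋ : ℝ) + 1 / 2) / 2 ^ s with hw
  have hp : ∀ s : ℕ, (1 / 2 : ℝ) ^ s = 1 / 2 ^ s := fun s => by rw [one_div_pow]
  have hl : ∀ s, w s - δ s = (⌊x * 2 ^ s⌋ : ℝ) / 2 ^ s := by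
    intro s
    simp only [hδ, hw, hp]
    ring
  have hr : ∀ s, w s + δ s = ((⌊x * 2 ^ s⌋ : ℝ) + 1) / 2 ^ s := by
    intro s
    simp only [hδ, hw, hp]
    ring
  have hδ0 : Tendsto δ atTop (𝓝[>] 0) := by
    rw [tendsto_nhdsWithin_iff]
    refine ⟨?_, Eventually.of_forall fun s => ?_⟩
    · have := (tendsto_pow_atTop_nhds_zero_of_lt_one (r := (1 / 2 : ℝ)) (by norm_num)
        (by norm_num)).div_const 2
      rw [zero_div] at this
      exact this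
    · simp only [hδ, mem_Ioi]
      positivity
  have hmem : ∀ᶠ s in atTop, x ∈ Metric.closedBall (w s) (1 * δ s) := by
    refine Eventually.of_forall fun s => ?_
    rw [one_mul, Real.closedBall_eq_Icc, hl, hr]
    have h2 : (0 : ℝ) < 2 ^ s := by positivity
    constructor
    · rw [div_le_iff₀ h2]; exact Int.floor_le _
    · rw [le_div_iff₀ h2]; exact (Int.lt_floor_add_one _).le
  have ht := hx w δ hδ0 hmem
  have hev := (tendsto_order.1 ht).1 (1 / 2) (by simp)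
  rw [eventually_atTop] at hev
  obtain ⟨s0, hs0⟩ := hev
  refine ⟨s0, fun s hs => ⟨⌊x * 2 ^ s⌋, ?_⟩⟩
  have h := hs0 s hs
  rw [Real.closedBall_eq_Icc, hl, hr, Real.volume_Icc] at h
  have e1 : ((⌊x * 2 ^ s⌋ : ℝ) + 1) / 2 ^ s - (⌊x * 2 ^ s⌋ : ℝ) / 2 ^ s = (1 / 2 : ℝ) ^ s := by
    rw [hp]; ring
  rw [e1] at h
  have hpos : ENNReal.ofReal ((1 / 2 : ℝ) ^ s) ≠ 0 := by
    rw [Ne, ENNReal.ofReal_eq_zero, not_le]; positivity
  rw [ENNReal.lt_div_iff_mul_lt (Or.inl hpos) (Or.inl ENNReal.ofReal_ne_top)] at h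
  have e2 : volume (E ∩ Ico ((⌊x * 2 ^ s⌋ : ℝ) / 2 ^ s) (((⌊x * 2 ^ s⌋ : ℝ) + 1) / 2 ^ s)) =
      volume (E ∩ Icc ((⌊x * 2 ^ s⌋ : ℝ) / 2 ^ s) (((⌊x * 2 ^ s⌋ : ℝ) + 1) / 2 ^ s)) :=
    measure_congr ((ae_eq_refl E).inter Ico_ae_eq_Icc)
  rw [e2]
  have e3 : ENNReal.ofReal ((1 / 2 : ℝ) ^ s / 2) = 1 / 2 * ENNReal.ofReal ((1 / 2 : ℝ) ^ s) := by
    rw [ENNReal.ofReal_div_of_pos (by norm_num), ENNReal.div_eq_inv_mul]
    simp
  rw [e3]
  exact h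

end

end Pool.Agent.Helper482.NA.M_a4
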