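import Pool.Agent.Helper482.NA.Defs

set_option autoImplicit false

namespace Pool.Agent.Helper482.NA.M_a5

open Pool.Agent.Helper482.NA
open MeasureTheory Filter Set Topology
open scoped Pointwise ENNReal

noncomputable section

theorem cell_kill (ℓ n : ℕ) (A P : Finset (ZMod (2 ^ ℓ))) (hAP : 2 ^ ℓ ≤ 2 * (A + P).card)
    (E Y : Set ℝ) (hP : ∀ p ∈ P, ∃ y ∈ Y, ((⌊y * 2 ^ (n + ℓ)⌋ : ℤ) : ZMod (2 ^ ℓ)) = p)
    (hE : ∀ x ∈ E, ∀ y ∈ Y, x - y ∉ PSet ℓ (n + ℓ) A) (i : ℤ) :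
    volume (E ∩ Ico ((i : ℝ) / 2 ^ n) (((i : ℝ) + 1) / 2 ^ n))
      ≤ ENNReal.ofReal ((1 / 2 : ℝ) ^ n / 2) := by
  classical
  haveI : NeZero (2 ^ ℓ) := ⟨by positivity⟩
  set N := n + ℓ with hN
  have hpN : (0 : ℝ) < 2 ^ N := by positivity
  have hpn : (0 : ℝ) < 2 ^ n := by positivity
  have hpl : (0 : ℝ) < 2 ^ ℓ := by positivity
  have hNe : (2 : ℝ) ^ N = 2 ^ n * 2 ^ ℓ := by rw [hN, pow_add]
  set J : ZMod (2 ^ ℓ) → Set ℝ := fun d =>
    Ico (((i : ℝ) * 2 ^ ℓ + (d.val : ℝ)) / 2 ^ N) (((i : ℝ) * 2 ^ ℓ + (d.val : ℝ) + 1) / 2 ^ N)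
    with hJ
  have hcover : E ∩ Ico ((i : ℝ) / 2 ^ n) (((i : ℝ) + 1) / 2 ^ n) ⊆
      ⋃ d ∈ (A + P)ᶜ, J d := by
    rintro x ⟨hxE, hx1, hx2⟩
    set j : ℤ := ⌊x * 2 ^ N⌋ with hj
    have hj1 : (j : ℝ) ≤ x * 2 ^ N := Int.floor_le _
    have hj2 : x * 2 ^ N < (j : ℝ) + 1 := Int.lt_floor_add_one _
    have hx1' : (i : ℝ) * 2 ^ ℓ ≤ x * 2 ^ N := by
      rw [hNe]
      rw [div_le_iff₀ hpn] at hx1
      nlinarith
    have hx2' : x * 2 ^ N < ((i : ℝ) + 1) * 2 ^ ℓ := by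
      rw [hNe]
      rw [lt_div_iff₀ hpn] at hx2
      nlinarith
    have hji1 : i * 2 ^ ℓ ≤ j := by
      rw [hj, Int.le_floor]
      push_cast
      exact hx1'
    have hji2 : j < (i + 1) * 2 ^ ℓ := by
      rw [hj, Int.floor_lt]
      push_cast
      exact hx2'
    have hval : (((j : ZMod (2 ^ ℓ)).val : ℕ) : ℤ) = j - i * 2 ^ ℓ := by
      rw [ZMod.val_intCast]
      have h1 : j = (j - i * 2 ^ ℓ) + i * 2 ^ ℓ := by ring
      push_cast
      conv_lhs => rw [h1]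
      rw [Int.add_mul_emod_self_right]
      apply Int.emod_eq_of_lt
      · linarith
      · linarith
    have hvalR : (((j : ZMod (2 ^ ℓ)).val : ℕ) : ℝ) = (j : ℝ) - (i : ℝ) * 2 ^ ℓ := by
      have : ((((j : ZMod (2 ^ ℓ)).val : ℕ) : ℤ) : ℝ) = ((j - i * 2 ^ ℓ : ℤ) : ℝ) := by
        rw [hval]
      push_cast at this
      exact this
    rw [Set.mem_iUnion₂]
    refine ⟨(j : ZMod (2 ^ ℓ)), ?_, ?_⟩
    · rw [Finset.mem_compl]
      intro hmem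
      rw [Finset.mem_add] at hmem
      obtain ⟨b, hb, p, hp, hbp⟩ := hmem
      obtain ⟨y, hyY, hyp⟩ := hP p hp
      apply hE x hxE y hyY
      refine ⟨j - ⌊y * 2 ^ N⌋, ?_, ?_⟩
      · have : ((j - ⌊y * 2 ^ N⌋ : ℤ) : ZMod (2 ^ ℓ)) = b := by
          push_cast
          rw [hyp, ← hbp]
          ring
        rw [this]
        exact hb
      · have hy1 : ((⌊y * 2 ^ N⌋ : ℤ) : ℝ) ≤ y * 2 ^ N := Int.floor_le _
        have hy2 : y * 2 ^ N < ((⌊y * 2 ^ N⌋ : ℤ) : ℝ) + 1 := Int.lt_floor_add_one _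
        push_cast
        rw [abs_lt]
        constructor <;> nlinarith
    · rw [hJ]
      simp only
      rw [hvalR]
      constructor
      · rw [div_le_iff₀ hpN]
        linarith
      · rw [lt_div_iff₀ hpN]
        linarith
  refine (measure_mono hcover).trans ((measure_biUnion_finset_le _ _).trans ?_)
  have hvol : ∀ d, volume (J d) = ENNReal.ofReal (1 / 2 ^ N) := by
    intro d
    rw [hJ]
    simp only
    rw [Real.volume_Ico]
    congr 1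
    rw [← sub_div]
    congr 1
    ring
  simp_rw [hvol]
  rw [Finset.sum_const, nsmul_eq_mul, ← ENNReal.ofReal_natCast,
    ← ENNReal.ofReal_mul (Nat.cast_nonneg _)]
  apply ENNReal.ofReal_le_ofReal
  have hcard : ((A + P)ᶜ.card : ℝ) ≤ 2 ^ ℓ / 2 := by
    have h1 : (A + P)ᶜ.card = 2 ^ ℓ - (A + P).card := by
      rw [Finset.card_compl, ZMod.card]
    have h2 : (A + P)ᶜ.card + (A + P).card = 2 ^ ℓ := by
      have : (A + P).card ≤ 2 ^ ℓ := by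
        calc (A + P).card ≤ Fintype.card (ZMod (2 ^ ℓ)) := Finset.card_le_univ _
          _ = 2 ^ ℓ := ZMod.card _
      omega
    have h3 : ((A + P)ᶜ.card : ℝ) + ((A + P).card : ℝ) = 2 ^ ℓ := by exact_mod_cast h2
    have h4 : (2 : ℝ) ^ ℓ ≤ 2 * ((A + P).card : ℝ) := by exact_mod_cast hAP
    linarith
  calc ((A + P)ᶜ.card : ℝ) * (1 / 2 ^ N) ≤ (2 ^ ℓ / 2) * (1 / 2 ^ N) :=
        mul_le_mul_of_nonneg_right hcard (by positivity)
    _ = (1 / 2 : ℝ) ^ n / 2 := by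
        rw [hNe, one_div_pow]
        field_simp

end

end Pool.Agent.Helper482.NA.M_a5
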