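import Pool.Agent.Helper482.NA.Defs
import Pool.Agent.Helper482.NA.M_a1
import Pool.Agent.Helper482.NA.M_a2
import Pool.Agent.Helper482.NA.M_a3
import Pool.Agent.Helper482.NA.M_a4
import Pool.Agent.Helper482.NA.M_a5

set_option autoImplicit false

namespace Pool.Agent.Helper482.NA.M_a6

open Pool.Agent.Helper482.NA
open Pool.Agent.Helper482.NA.M_a1
open Pool.Agent.Helper482.NA.M_a2
open Pool.Agent.Helper482.NA.M_a3
open Pool.Agent.Helper482.NA.M_a4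
open Pool.Agent.Helper482.NA.M_a5
open MeasureTheory Filter Set Topology
open scoped Pointwise ENNReal

noncomputable section

theorem slalom (M L0 : ℕ → ℕ) (hM : ∀ k, 1 ≤ M k)
    (hC : ∀ k, ∀ L : ℕ, L0 k ≤ L → 1 ≤ L → ∃ A : Finset (ZMod L), 2 ^ k * A.card ≤ 2 * L ∧
      ∀ P : Finset (ZMod L), M k ≤ P.card → L ≤ 2 * (A + P).card)
    (n ℓ : ℕ → ℕ) (hn : ∀ k, n (k + 1) = n k + ℓ k) (hℓ : ∀ k, L0 k ≤ 2 ^ (ℓ k))
    (hℓ1 : ∀ k, 1 ≤ ℓ k) (Y : Set ℝ) (hY : NullAdditive Y) :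
    ∃ S : ∀ k, Finset (ZMod (2 ^ (ℓ k))), (∀ k, (S k).card ≤ (k + 1) * M k) ∧
      ∀ y ∈ Y, ∀ᶠ k in atTop, ((⌊y * 2 ^ (n k + ℓ k)⌋ : ℤ) : ZMod (2 ^ (ℓ k))) ∈ S k := by
  classical
  have hex : ∀ k, ∃ A : Finset (ZMod (2 ^ (ℓ k))), 2 ^ k * A.card ≤ 2 * 2 ^ (ℓ k) ∧
      ∀ P : Finset (ZMod (2 ^ (ℓ k))), M k ≤ P.card → 2 ^ (ℓ k) ≤ 2 * (A + P).card :=
    fun k => hC k (2 ^ (ℓ k)) (hℓ k) Nat.one_le_two_pow
  choose A hA1 hA2 using hex
  have hN := limsup_null ℓ (fun k => n k + ℓ k) (fun k => Nat.le_add_left _ _) A hA1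
  obtain ⟨E, hE1, hE2⟩ := baire_step (fun k => PSet (ℓ k) (n k + ℓ k) (A k))
    (fun k => pset_open _ _ _) hN Y hY
  have hden := fun e => density (E e) (hE1 e)
  choose s0 hs0 using hden
  have hnk : ∀ k, k ≤ n k := by
    intro k
    induction k with
    | zero => exact Nat.zero_le _
    | succ k ih =>
      rw [hn]
      have := hℓ1 k
      omega
  -- digit sets
  obtain ⟨Dg, hDg⟩ : ∃ Dg : ℕ → ℕ → ∀ k, Finset (ZMod (2 ^ (ℓ k))), ∀ e m k p,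
      p ∈ Dg e m k ↔ ∃ y ∈ {y ∈ Y | ∀ k ≥ m, ∀ x ∈ E e, x - y ∉ PSet (ℓ k) (n k + ℓ k) (A k)},
        ((⌊y * 2 ^ (n k + ℓ k)⌋ : ℤ) : ZMod (2 ^ (ℓ k))) = p := by
    refine ⟨fun e m k => Finset.univ.filter (fun p => ∃ y ∈ {y ∈ Y | ∀ k ≥ m, ∀ x ∈ E e,
      x - y ∉ PSet (ℓ k) (n k + ℓ k) (A k)},
        ((⌊y * 2 ^ (n k + ℓ k)⌋ : ℤ) : ZMod (2 ^ (ℓ k))) = p), ?_⟩
    intro e m k p
    rw [Finset.mem_filter]
    exact ⟨fun h => h.2, fun h => ⟨Finset.mem_univ _, h⟩⟩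
  have hcard : ∀ e m k, m ≤ k → s0 e ≤ k → (Dg e m k).card ≤ M k := by
    intro e m k hmk hsk
    by_contra hcon
    push Not at hcon
    have h1 := hA2 k (Dg e m k) hcon.le
    have h2 := cell_kill (ℓ k) (n k) (A k) (Dg e m k) h1 (E e)
      {y ∈ Y | ∀ k ≥ m, ∀ x ∈ E e, x - y ∉ PSet (ℓ k) (n k + ℓ k) (A k)}
      (fun p hp => (hDg e m k p).1 hp) (fun x hx y hy => hy.2 k hmk x hx)
    obtain ⟨i, hi⟩ := hs0 e (n k) (le_trans hsk (hnk k))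
    exact absurd (h2 i) (not_le.2 hi)
  refine ⟨fun k => (Finset.range (k + 1)).biUnion (fun d =>
    if d.unpair.2 ≤ k ∧ s0 d.unpair.1 ≤ k then Dg d.unpair.1 d.unpair.2 k else ∅), ?_, ?_⟩
  · intro k
    have h1 := Finset.card_biUnion_le_card_mul (Finset.range (k + 1)) (fun d =>
      if d.unpair.2 ≤ k ∧ s0 d.unpair.1 ≤ k then Dg d.unpair.1 d.unpair.2 k else ∅) (M k) (by
        intro d _
        show (if d.unpair.2 ≤ k ∧ s0 d.unpair.1 ≤ k then Dg d.unpair.1 d.unpair.2 k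
          else ∅ : Finset (ZMod (2 ^ (ℓ k)))).card ≤ M k
        split_ifs with h
        · exact hcard _ _ k h.1 h.2
        · simp)
    rw [Finset.card_range] at h1
    exact h1
  · intro y hy
    obtain ⟨e, m, hem⟩ := hE2 y hy
    refine eventually_atTop.2 ⟨max (Nat.pair e m) (max m (s0 e)), ?_⟩
    intro k hk
    have hk1 : Nat.pair e m ≤ k := le_trans (le_max_left _ _) hk
    have hk2 : m ≤ k := le_trans (le_trans (le_max_left _ _) (le_max_right _ _)) hk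
    have hk3 : s0 e ≤ k := le_trans (le_trans (le_max_right _ _) (le_max_right _ _)) hk
    show _ ∈ (Finset.range (k + 1)).biUnion (fun d =>
      if d.unpair.2 ≤ k ∧ s0 d.unpair.1 ≤ k then Dg d.unpair.1 d.unpair.2 k else ∅)
    rw [Finset.mem_biUnion]
    refine ⟨Nat.pair e m, Finset.mem_range.2 (by omega), ?_⟩
    rw [Nat.unpair_pair]
    simp only
    rw [if_pos ⟨hk2, hk3⟩, hDg]
    exact ⟨y, ⟨hy, hem⟩, rfl⟩

end

end Pool.Agent.Helper482.NA.M_a6
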