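import Pool.Agent.Helper482.NA.Defs

set_option autoImplicit false

namespace Pool.Agent.Helper482.NA.M_b1

open Pool.Agent.Helper482.NA
open MeasureTheory Filter Set Topology
open scoped Pointwise ENNReal

noncomputable section

theorem null_cover_ball (x : ℝ × ℝ) (n : ℕ) :
    ((1 / 4 : ℝ≥0∞)) ^ n ≤ volume (Metric.closedBall x ((1 / 2 : ℝ) ^ n)) := by
  obtain ⟨a, b⟩ := x
  rw [← closedBall_prod_same, Measure.volume_eq_prod, Measure.prod_prod, Real.volume_closedBall,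
    Real.volume_closedBall, ← ENNReal.ofReal_mul (by positivity)]
  have h1 : ((1 / 4 : ℝ≥0∞)) ^ n = ENNReal.ofReal ((1 / 4 : ℝ) ^ n) := by
    rw [ENNReal.ofReal_pow (by norm_num)]
    congr 1
    rw [ENNReal.ofReal_div_of_pos (by norm_num)]
    simp
  rw [h1]
  apply ENNReal.ofReal_le_ofReal
  have h2 : 2 * (1 / 2 : ℝ) ^ n * (2 * (1 / 2 : ℝ) ^ n) = 4 * (1/4 : ℝ)^n := by
    have : (1/4 : ℝ)^n = (1/2)^n * (1/2)^n := by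
      rw [← mul_pow]; norm_num
    rw [this]; ring
  rw [h2]
  have h3 : (0:ℝ) ≤ (1/4)^n := by positivity
  linarith

theorem null_cover_tail (ε : ℝ≥0∞) (hε : ε ≠ 0) :
    ∃ K : ℕ, ∑' k : ℕ, ((1 / 4 : ℝ≥0∞)) ^ (k + K) ≤ ε := by
  have hlt : ((1 / 4 : ℝ≥0∞)) < 1 := by
    rw [one_div]
    exact ENNReal.inv_lt_one.2 (by norm_num)
  have hC : (1 - (1/4 : ℝ≥0∞))⁻¹ ≠ ⊤ := by
    rw [ENNReal.inv_ne_top]
    exact (tsub_pos_of_lt hlt).ne'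
  have h1 : Tendsto (fun K : ℕ => (1 - (1/4 : ℝ≥0∞))⁻¹ * (1/4 : ℝ≥0∞) ^ K) atTop
      (𝓝 ((1 - (1/4 : ℝ≥0∞))⁻¹ * 0)) :=
    ENNReal.Tendsto.const_mul (ENNReal.tendsto_pow_atTop_nhds_zero_of_lt_one hlt) (Or.inr hC)
  rw [mul_zero] at h1
  obtain ⟨K, hK⟩ := (h1.eventually_lt_const (pos_iff_ne_zero.2 hε)).exists
  refine ⟨K, ?_⟩
  have h2 : ∑' k : ℕ, ((1 / 4 : ℝ≥0∞)) ^ (k + K) = (1 - (1/4 : ℝ≥0∞))⁻¹ * (1/4 : ℝ≥0∞) ^ K := by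
    simp_rw [pow_add]
    rw [ENNReal.tsum_mul_right, ENNReal.tsum_geometric]
  rw [h2]
  exact hK.le

theorem null_cover (N : Set (ℝ × ℝ)) (hN : volume N = 0) (ε : ℝ≥0∞) (hε : ε ≠ 0) :
    ∃ (c : ℕ → ℝ × ℝ) (s : ℕ → ℕ), N ⊆ ⋃ i, Metric.closedBall (c i) ((1 / 2 : ℝ) ^ (s i)) ∧
      ∑' i, ((1 / 4 : ℝ≥0∞)) ^ (s i) ≤ ε := by
  have hε2 : ε / 2 ≠ 0 := by
    rw [Ne, ENNReal.div_eq_zero_iff]
    simp [hε]
  obtain ⟨t, r, ht, -, hr, hcov, hsum⟩ :=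
    Besicovitch.exists_closedBall_covering_tsum_measure_le (volume : Measure (ℝ × ℝ)) hε2
      (fun _ => {r : ℝ | ∃ n : ℕ, r = (1/2 : ℝ)^n}) N (by
        intro x _ δ hδ
        obtain ⟨n, hn⟩ := exists_pow_lt_of_lt_one hδ (by norm_num : (1/2 : ℝ) < 1)
        exact ⟨(1/2)^n, ⟨n, rfl⟩, by positivity, hn⟩)
  obtain ⟨K, hK⟩ := null_cover_tail (ε / 2) hε2
  choose! n hn using hr
  have : Countable t := ht.to_subtype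
  have : Countable (t ⊕ ℕ) := inferInstance
  have : Infinite (t ⊕ ℕ) := inferInstance
  obtain ⟨hden⟩ := nonempty_denumerable (t ⊕ ℕ)
  let e : (t ⊕ ℕ) ≃ ℕ := Denumerable.eqv (t ⊕ ℕ)
  let c' : t ⊕ ℕ → ℝ × ℝ := Sum.elim (fun x => (x : ℝ × ℝ)) (fun _ => 0)
  let s' : t ⊕ ℕ → ℕ := Sum.elim (fun x => n x) (fun k => k + K)
  refine ⟨fun i => c' (e.symm i), fun i => s' (e.symm i), ?_, ?_⟩
  · intro y hy
    obtain ⟨x, hx⟩ := mem_iUnion.1 (hcov hy)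
    obtain ⟨hxt, hyx⟩ := mem_iUnion.1 hx
    refine mem_iUnion.2 ⟨e (Sum.inl ⟨x, hxt⟩), ?_⟩
    simp only [Equiv.symm_apply_apply]
    show y ∈ Metric.closedBall x ((1/2 : ℝ)^(n x))
    rw [← hn x hxt]
    exact hyx
  · have h1 : ∑' i, ((1 / 4 : ℝ≥0∞)) ^ (s' (e.symm i)) = ∑' y : t ⊕ ℕ, ((1 / 4 : ℝ≥0∞)) ^ (s' y) :=
      e.symm.tsum_eq (fun y => ((1 / 4 : ℝ≥0∞)) ^ (s' y))
    have h2 : HasSum (fun y : t ⊕ ℕ => ((1 / 4 : ℝ≥0∞)) ^ (s' y))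
        (∑' x : t, ((1 / 4 : ℝ≥0∞)) ^ (n x) + ∑' k : ℕ, ((1 / 4 : ℝ≥0∞)) ^ (k + K)) := by
      refine HasSum.sum ?_ ?_
      · exact ENNReal.summable.hasSum
      · exact ENNReal.summable.hasSum
    show ∑' i, ((1 / 4 : ℝ≥0∞)) ^ (s' (e.symm i)) ≤ ε
    rw [h1, h2.tsum_eq]
    have h3 : ∑' x : t, ((1 / 4 : ℝ≥0∞)) ^ (n x) ≤ ε / 2 := by
      refine le_trans (ENNReal.tsum_le_tsum fun x => ?_) (hsum.trans_eq (by rw [hN, zero_add]))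
      rw [hn x x.2]
      exact null_cover_ball _ _
    calc _ ≤ ε / 2 + ε / 2 := add_le_add h3 hK
      _ = ε := ENNReal.add_halves ε

end

end Pool.Agent.Helper482.NA.M_b1
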