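import Pool.Agent.Helper482.NA.Defs

set_option autoImplicit false

namespace Pool.Agent.Helper482.NA.M_b2

open Pool.Agent.Helper482.NA
open MeasureTheory Filter Set Topology
open scoped Pointwise ENNReal

noncomputable section

theorem tail_small {ι : Type} (v : ι → ℝ≥0∞) (s : ι → ℕ) (hv : ∑' i, v i ≠ ∞) (ε : ℝ≥0∞)
    (hε : ε ≠ 0) : ∃ n0 : ℕ, ∀ n ≥ n0, ∑' i, (if n ≤ s i then v i else 0) ≤ ε := by
  classical
  have h1 := ENNReal.tendsto_tsum_compl_atTop_zero hv
  have h2 : ∀ᶠ F : Finset ι in atTop, ∑' b : { x // x ∉ F }, v b < ε :=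
    h1.eventually (gt_mem_nhds (pos_iff_ne_zero.2 hε))
  obtain ⟨F, hF⟩ := h2.exists
  refine ⟨F.sup s + 1, fun n hn => ?_⟩
  have h3 : ∑' b : { x // x ∉ F }, v b = ∑' i, Set.indicator {x | x ∉ F} v i :=
    tsum_subtype {x | x ∉ F} v
  rw [h3] at hF
  refine le_trans (ENNReal.tsum_le_tsum (fun i => ?_)) hF.le
  by_cases hi : i ∈ F
  · have : s i ≤ F.sup s := Finset.le_sup hi
    rw [if_neg (by omega)]
    exact bot_le
  · rw [Set.indicator_of_mem (show i ∈ {x | x ∉ F} from hi)]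
    split_ifs
    · exact le_rfl
    · exact bot_le

end

end Pool.Agent.Helper482.NA.M_b2
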