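import Pool.Agent.Helper482.NA.Defs
import Pool.Agent.Helper482.NA.M_b2

set_option autoImplicit false

namespace Pool.Agent.Helper482.NA.M_b3

open Pool.Agent.Helper482.NA
open Pool.Agent.Helper482.NA.M_b2
open MeasureTheory Filter Set Topology
open scoped Pointwise ENNReal

noncomputable section

theorem choose_levels {ι : Type} (v : ι → ℝ≥0∞) (s : ι → ℕ) (hv : ∑' i, v i ≠ ∞)
    (H ℓ0 : ℕ → ℕ) : ∃ ℓ n : ℕ → ℕ, n 0 = 0 ∧ (∀ k, n (k + 1) = n k + ℓ k) ∧ (∀ k, 1 ≤ ℓ k) ∧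
      (∀ k, ℓ0 k ≤ ℓ k) ∧
      ∑' i, v i * (∑' k, if n k ≤ s i then ((H k : ℝ≥0∞)) ^ 2 else 0) ≠ ∞ := by
  have hex : ∀ k : ℕ, ∃ n0 : ℕ, ∀ n ≥ n0, ∑' i, (if n ≤ s i then v i else 0) ≤
      (2⁻¹ : ℝ≥0∞) ^ k / ((H k : ℝ≥0∞)) ^ 2 := by
    intro k
    refine tail_small v s hv _ ?_
    rw [ENNReal.div_ne_zero]
    refine ⟨pow_ne_zero _ (ENNReal.inv_ne_zero.mpr ENNReal.ofNat_ne_top), ?_⟩
    exact ENNReal.pow_ne_top (ENNReal.natCast_ne_top _)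
  choose thr hthr using hex
  refine ⟨fun k => ℓ0 k + 1 + thr (k + 1), fun k => ∑ i ∈ Finset.range k, (ℓ0 i + 1 + thr (i + 1)),
    by simp, fun k => Finset.sum_range_succ _ _, fun k => by beta_reduce; omega, fun k => by beta_reduce; omega, ?_⟩
  set n : ℕ → ℕ := fun k => ∑ i ∈ Finset.range k, (ℓ0 i + 1 + thr (i + 1)) with hn
  have hge : ∀ k, thr (k + 1) ≤ n (k + 1) := by
    intro k
    rw [hn]
    beta_reduce
    rw [Finset.sum_range_succ]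
    omega
  have h1 : ∑' i, v i * (∑' k, if n k ≤ s i then ((H k : ℝ≥0∞)) ^ 2 else 0) =
      ∑' k, ((H k : ℝ≥0∞)) ^ 2 * ∑' i, (if n k ≤ s i then v i else 0) := by
    calc ∑' i, v i * (∑' k, if n k ≤ s i then ((H k : ℝ≥0∞)) ^ 2 else 0)
        = ∑' i, ∑' k, v i * (if n k ≤ s i then ((H k : ℝ≥0∞)) ^ 2 else 0) := by
          refine tsum_congr fun i => ?_
          rw [ENNReal.tsum_mul_left]
      _ = ∑' k, ∑' i, v i * (if n k ≤ s i then ((H k : ℝ≥0∞)) ^ 2 else 0) := ENNReal.tsum_comm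
      _ = ∑' k, ((H k : ℝ≥0∞)) ^ 2 * ∑' i, (if n k ≤ s i then v i else 0) := by
          refine tsum_congr fun k => ?_
          rw [← ENNReal.tsum_mul_left]
          refine tsum_congr fun i => ?_
          split_ifs
          · rw [mul_comm]
          · simp
  rw [h1, tsum_eq_zero_add' ENNReal.summable]
  refine ENNReal.add_ne_top.mpr ⟨?_, ?_⟩
  · refine ENNReal.mul_ne_top (ENNReal.pow_ne_top (ENNReal.natCast_ne_top _)) ?_
    refine ne_top_of_le_ne_top hv (ENNReal.tsum_le_tsum fun i => ?_)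
    split_ifs
    · exact le_rfl
    · simp
  · have h2 : ∑' k : ℕ, (2⁻¹ : ℝ≥0∞) ^ (k + 1) ≠ ∞ := by
      rw [ENNReal.tsum_geometric_add_one, ENNReal.one_sub_inv_two, inv_inv,
        ENNReal.inv_mul_cancel (by norm_num) ENNReal.ofNat_ne_top]
      exact ENNReal.one_ne_top
    refine ne_top_of_le_ne_top h2 (ENNReal.tsum_le_tsum fun k => ?_)
    calc ((H (k + 1) : ℝ≥0∞)) ^ 2 * ∑' i, (if n (k + 1) ≤ s i then v i else 0)
        ≤ ((H (k + 1) : ℝ≥0∞)) ^ 2 * ((2⁻¹ : ℝ≥0∞) ^ (k + 1) / ((H (k + 1) : ℝ≥0∞)) ^ 2) := by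
          gcongr
          exact hthr (k + 1) (n (k + 1)) (hge k)
      _ ≤ (2⁻¹ : ℝ≥0∞) ^ (k + 1) := ENNReal.mul_div_le

end

end Pool.Agent.Helper482.NA.M_b3
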