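import Pool.Agent.Helper482.NA.Defs

set_option autoImplicit false

namespace Pool.Agent.Helper482.NA.M_b4

open Pool.Agent.Helper482.NA
open MeasureTheory Filter Set Topology
open scoped Pointwise ENNReal

noncomputable section

theorem prod_add_ball_vol (c : ℝ × ℝ) (s : ℕ) :
    volume (Metric.closedBall c (2 * (1 / 2 : ℝ) ^ s)) = 16 * (1 / 4 : ℝ≥0∞) ^ s := by
  obtain ⟨a, b⟩ := c
  rw [← closedBall_prod_same, Measure.volume_eq_prod, Measure.prod_prod, Real.volume_closedBall,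
    Real.volume_closedBall, ← ENNReal.ofReal_mul (by positivity)]
  have h1 : 2 * (2 * (1 / 2 : ℝ) ^ s) * (2 * (2 * (1 / 2 : ℝ) ^ s)) = 16 * (1 / 4 : ℝ) ^ s := by
    have : (1 / 4 : ℝ) ^ s = (1 / 2 : ℝ) ^ s * (1 / 2 : ℝ) ^ s := by
      rw [← mul_pow]; norm_num
    rw [this]; ring
  rw [h1, ENNReal.ofReal_mul (by norm_num), ENNReal.ofReal_pow (by norm_num)]
  congr 1
  · norm_num
  · congr 1
    rw [ENNReal.ofReal_div_of_pos (by norm_num)]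
    norm_num

theorem prod_add_ball_floor (x : ℝ) (s : ℕ) :
    |x - (⌊x * 2 ^ s⌋ : ℝ) / 2 ^ s| ≤ (1 / 2 : ℝ) ^ s := by
  have h1 := Int.floor_le (x * 2 ^ s)
  have h2 := Int.lt_floor_add_one (x * 2 ^ s)
  have hp : (0 : ℝ) < 2 ^ s := by positivity
  have e : (1 / 2 : ℝ) ^ s = 1 / 2 ^ s := by rw [div_pow, one_pow]
  have e2 : x - (⌊x * 2 ^ s⌋ : ℝ) / 2 ^ s = (x * 2 ^ s - ⌊x * 2 ^ s⌋) / 2 ^ s := by
    field_simp
  rw [e, e2, abs_div, abs_of_pos hp]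
  apply div_le_div_of_nonneg_right _ hp.le
  rw [abs_le]
  constructor <;> linarith

theorem prod_add_ball (X Y : Set ℝ) (s : ℕ) (F G : Finset ℤ) (hF : ∀ x ∈ X, ⌊x * 2 ^ s⌋ ∈ F)
    (hG : ∀ y ∈ Y, ⌊y * 2 ^ s⌋ ∈ G) (c : ℝ × ℝ) :
    volume ((X ×ˢ Y) + Metric.closedBall c ((1 / 2 : ℝ) ^ s))
      ≤ (F.card : ℝ≥0∞) * (G.card : ℝ≥0∞) * (16 * (1 / 4 : ℝ≥0∞) ^ s) := by
  have hsub : (X ×ˢ Y) + Metric.closedBall c ((1 / 2 : ℝ) ^ s) ⊆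
      ⋃ p ∈ F ×ˢ G, Metric.closedBall (c + ((p.1 : ℝ) / 2 ^ s, (p.2 : ℝ) / 2 ^ s))
        (2 * (1 / 2 : ℝ) ^ s) := by
    intro z hz
    obtain ⟨p, hp, q, hq, rfl⟩ := Set.mem_add.1 hz
    rw [Set.mem_iUnion₂]
    refine ⟨(⌊p.1 * 2 ^ s⌋, ⌊p.2 * 2 ^ s⌋), ?_, ?_⟩
    · rw [Finset.mem_product]
      exact ⟨hF _ hp.1, hG _ hp.2⟩
    · rw [Metric.mem_closedBall] at hq ⊢
      have hd : dist p ((⌊p.1 * 2 ^ s⌋ : ℝ) / 2 ^ s, (⌊p.2 * 2 ^ s⌋ : ℝ) / 2 ^ s) ≤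
          (1 / 2 : ℝ) ^ s := by
        rw [Prod.dist_eq]
        apply max_le
        · rw [Real.dist_eq]; exact prod_add_ball_floor p.1 s
        · rw [Real.dist_eq]; exact prod_add_ball_floor p.2 s
      have h2 := dist_add_add_le p q ((⌊p.1 * 2 ^ s⌋ : ℝ) / 2 ^ s, (⌊p.2 * 2 ^ s⌋ : ℝ) / 2 ^ s) c
      rw [add_comm c]
      linarith
  refine (measure_mono hsub).trans ((measure_biUnion_finset_le _ _).trans ?_)
  simp only [prod_add_ball_vol]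
  rw [Finset.sum_const, Finset.card_product, nsmul_eq_mul]
  push_cast
  exact le_rfl

end

end Pool.Agent.Helper482.NA.M_b4
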