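import Pool.Agent.Helper482.NA.Defs

set_option autoImplicit false

namespace Pool.Agent.Helper482.NA.M_b5

open Pool.Agent.Helper482.NA
open MeasureTheory Filter Set Topology
open scoped Pointwise ENNReal

noncomputable section

theorem j23360_div (z : ℝ) (a d : ℕ) : ⌊z * 2 ^ (a + d)⌋ / (2 : ℤ) ^ d = ⌊z * 2 ^ a⌋ := by
  have h := Int.floor_div_natCast (z * 2 ^ (a + d)) (2 ^ d)
  have h2 : z * 2 ^ (a + d) / ((2 ^ d : ℕ) : ℝ) = z * 2 ^ a := by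
    push_cast
    rw [pow_add]
    field_simp
  rw [h2] at h
  rw [h]
  push_cast
  rfl

theorem j23360_step (n ℓ : ℕ → ℕ) (hn : ∀ k, n (k + 1) = n k + ℓ k)
    (S : ∀ k, Finset (ZMod (2 ^ (ℓ k)))) (h : ℕ → ℕ)
    (hS : ∀ k, (S k).card ≤ h k) (Z : Set ℝ) (m : ℕ)
    (hZS : ∀ z ∈ Z, ∀ k ≥ m, ((⌊z * 2 ^ (n k + ℓ k)⌋ : ℤ) : ZMod (2 ^ (ℓ k))) ∈ S k)
    (k : ℕ) (hk : m ≤ k) (C : ℕ) (F : Finset ℤ) (hF : F.card ≤ C)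
    (hFZ : ∀ z ∈ Z, ⌊z * 2 ^ (n k)⌋ ∈ F) :
    ∃ F' : Finset ℤ, F'.card ≤ C * h k ∧ ∀ z ∈ Z, ⌊z * 2 ^ (n (k + 1))⌋ ∈ F' := by
  classical
  refine ⟨(F ×ˢ S k).image (fun p => (2 : ℤ) ^ (ℓ k) * p.1 + (p.2.val : ℤ)), ?_, ?_⟩
  · refine Finset.card_image_le.trans ?_
    rw [Finset.card_product]
    exact Nat.mul_le_mul hF (hS k)
  · intro z hz
    rw [Finset.mem_image]
    refine ⟨(⌊z * 2 ^ (n k)⌋, ((⌊z * 2 ^ (n k + ℓ k)⌋ : ℤ) : ZMod (2 ^ (ℓ k)))), ?_, ?_⟩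
    · rw [Finset.mem_product]
      exact ⟨hFZ z hz, hZS z hz k hk⟩
    · simp only
      rw [ZMod.val_intCast, ← j23360_div z (n k) (ℓ k), hn k]
      push_cast
      exact Int.mul_ediv_add_emod _ _

theorem j23360_base (n ℓ : ℕ → ℕ) (hn : ∀ k, n (k + 1) = n k + ℓ k)
    (Z : Set ℝ) (m R : ℕ) (hZ : ∀ z ∈ Z, |z| ≤ (R : ℝ)) (k : ℕ) (hk : k ≤ m) :
    ∃ F : Finset ℤ, F.card ≤ 2 * (R * 2 ^ (n m)) + 3 ∧ ∀ z ∈ Z, ⌊z * 2 ^ (n k)⌋ ∈ F := by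
  have hmono : Monotone n := monotone_nat_of_le_succ (fun k => by rw [hn k]; omega)
  refine ⟨Finset.Icc (-((R * 2 ^ (n m) : ℕ) : ℤ) - 1) (((R * 2 ^ (n m) : ℕ) : ℤ) + 1), ?_, ?_⟩
  · rw [Int.card_Icc]
    omega
  · intro z hz
    have h1 := hZ z hz
    have h2 : |z * 2 ^ (n k)| ≤ ((R * 2 ^ (n m) : ℕ) : ℝ) := by
      rw [abs_mul, abs_of_pos (by positivity : (0 : ℝ) < 2 ^ (n k))]
      push_cast
      exact mul_le_mul h1 (pow_le_pow_right₀ (by norm_num) (hmono hk)) (by positivity) (by positivity)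
    rw [abs_le] at h2
    rw [Finset.mem_Icc]
    constructor
    · rw [Int.le_floor]
      push_cast at h2 ⊢
      linarith [h2.1]
    · have h3 : ((⌊z * 2 ^ (n k)⌋ : ℤ) : ℝ) ≤ z * 2 ^ (n k) := Int.floor_le _
      have h4 : ((⌊z * 2 ^ (n k)⌋ : ℤ) : ℝ) ≤ ((((R * 2 ^ (n m) : ℕ) : ℤ) : ℤ) : ℝ) := by
        push_cast at h2 ⊢
        linarith [h2.2]
      have h5 := Int.cast_le.mp h4
      omega

theorem j23360_all (n ℓ : ℕ → ℕ) (hn : ∀ k, n (k + 1) = n k + ℓ k)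
    (S : ∀ k, Finset (ZMod (2 ^ (ℓ k)))) (h : ℕ → ℕ) (hh : ∀ k, 1 ≤ h k)
    (hS : ∀ k, (S k).card ≤ h k) (Z : Set ℝ) (m R : ℕ) (hZ : ∀ z ∈ Z, |z| ≤ (R : ℝ))
    (hZS : ∀ z ∈ Z, ∀ k ≥ m, ((⌊z * 2 ^ (n k + ℓ k)⌋ : ℤ) : ZMod (2 ^ (ℓ k))) ∈ S k)
    (k : ℕ) : ∃ F : Finset ℤ, F.card ≤ (2 * (R * 2 ^ (n m)) + 3) * ∏ i ∈ Finset.range k, h i ∧
      ∀ z ∈ Z, ⌊z * 2 ^ (n k)⌋ ∈ F := by
  induction k with
  | zero =>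
    obtain ⟨F, h1, h2⟩ := j23360_base n ℓ hn Z m R hZ 0 (Nat.zero_le _)
    exact ⟨F, by simpa using h1, h2⟩
  | succ k ih =>
    by_cases hk : m ≤ k
    · obtain ⟨F, h1, h2⟩ := ih
      obtain ⟨F', h3, h4⟩ := j23360_step n ℓ hn S h hS Z m hZS k hk _ F h1 h2
      refine ⟨F', ?_, h4⟩
      rw [Finset.prod_range_succ, ← mul_assoc]
      exact h3
    · obtain ⟨F, h1, h2⟩ := j23360_base n ℓ hn Z m R hZ (k + 1) (by omega)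
      refine ⟨F, h1.trans ?_, h2⟩
      exact Nat.le_mul_of_pos_right _ (Finset.prod_pos (fun i _ => hh i))

theorem count_of_slalom (n ℓ : ℕ → ℕ) (hn : ∀ k, n (k + 1) = n k + ℓ k)
    (S : ∀ k, Finset (ZMod (2 ^ (ℓ k)))) (h : ℕ → ℕ) (hh : ∀ k, 1 ≤ h k)
    (hS : ∀ k, (S k).card ≤ h k) (Z : Set ℝ) (m R : ℕ) (hZ : ∀ z ∈ Z, |z| ≤ (R : ℝ))
    (hZS : ∀ z ∈ Z, ∀ k ≥ m, ((⌊z * 2 ^ (n k + ℓ k)⌋ : ℤ) : ZMod (2 ^ (ℓ k))) ∈ S k) :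
    ∃ c : ℕ, ∀ k s : ℕ, s ≤ n (k + 1) → ∃ F : Finset ℤ,
      F.card ≤ c * ∏ i ∈ Finset.range (k + 1), h i ∧ ∀ z ∈ Z, ⌊z * 2 ^ s⌋ ∈ F := by
  classical
  refine ⟨2 * (R * 2 ^ (n m)) + 3, fun k s hs => ?_⟩
  obtain ⟨F, h1, h2⟩ := j23360_all n ℓ hn S h hh hS Z m R hZ hZS (k + 1)
  refine ⟨F.image (fun x => x / (2 : ℤ) ^ (n (k + 1) - s)), Finset.card_image_le.trans h1, ?_⟩
  intro z hz
  rw [Finset.mem_image]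
  refine ⟨_, h2 z hz, ?_⟩
  have h3 := j23360_div z s (n (k + 1) - s)
  rw [Nat.add_sub_cancel' hs] at h3
  exact h3

end

end Pool.Agent.Helper482.NA.M_b5
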