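import Pool.Agent.Helper482.NA.Defs
import Pool.Agent.Helper482.NA.M_b4

set_option autoImplicit false

namespace Pool.Agent.Helper482.NA.M_b6

open Pool.Agent.Helper482.NA
open Pool.Agent.Helper482.NA.M_b4
open MeasureTheory Filter Set Topology
open scoped Pointwise ENNReal

noncomputable section

theorem thin_ball_aux (n ℓ H : ℕ → ℕ) (h0 : n 0 = 0) (hn : ∀ k, n (k + 1) = n k + ℓ k)
    (hℓ1 : ∀ k, 1 ≤ ℓ k) (X Y : Set ℝ) (cX cY : ℕ)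
    (hX : ∀ k s : ℕ, s ≤ n (k + 1) → ∃ F : Finset ℤ, F.card ≤ cX * H k ∧ ∀ z ∈ X, ⌊z * 2 ^ s⌋ ∈ F)
    (hY : ∀ k s : ℕ, s ≤ n (k + 1) → ∃ F : Finset ℤ, F.card ≤ cY * H k ∧ ∀ z ∈ Y, ⌊z * 2 ^ s⌋ ∈ F)
    (c : ℝ × ℝ) (s : ℕ) :
    volume ((X ×ˢ Y) + Metric.closedBall c ((1 / 2 : ℝ) ^ s)) ≤
      (16 * (cX : ℝ≥0∞) * cY) * ((1 / 4 : ℝ≥0∞) ^ s *
        ∑' k, if n k ≤ s then ((H k : ℝ≥0∞)) ^ 2 else 0) := by
  have hge : ∀ k, k ≤ n k := by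
    intro k
    induction k with
    | zero => simp
    | succ k ih => rw [hn]; have := hℓ1 k; omega
  have hex : ∃ m, s < n m := ⟨s + 1, lt_of_lt_of_le (Nat.lt_succ_self s) (hge _)⟩
  obtain ⟨k, hk1, hk2⟩ : ∃ k, n k ≤ s ∧ s < n (k + 1) := by
    classical
    have hm := Nat.find_spec hex
    rcases hmm : Nat.find hex with _ | k
    · rw [hmm, h0] at hm
      omega
    · refine ⟨k, ?_, ?_⟩
      · have := Nat.find_min hex (m := k) (by omega)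
        omega
      · rw [hmm] at hm
        exact hm
  obtain ⟨F, hF1, hF2⟩ := hX k s hk2.le
  obtain ⟨G, hG1, hG2⟩ := hY k s hk2.le
  refine (prod_add_ball X Y s F G hF2 hG2 c).trans ?_
  have h1 : ((H k : ℝ≥0∞)) ^ 2 ≤ ∑' k, if n k ≤ s then ((H k : ℝ≥0∞)) ^ 2 else 0 := by
    have := ENNReal.le_tsum (f := fun k => if n k ≤ s then ((H k : ℝ≥0∞)) ^ 2 else 0) k
    simpa [hk1] using this
  have hF3 : (F.card : ℝ≥0∞) ≤ (cX : ℝ≥0∞) * H k := by exact_mod_cast hF1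
  have hG3 : (G.card : ℝ≥0∞) ≤ (cY : ℝ≥0∞) * H k := by exact_mod_cast hG1
  calc (F.card : ℝ≥0∞) * (G.card : ℝ≥0∞) * (16 * (1 / 4 : ℝ≥0∞) ^ s)
      ≤ ((cX : ℝ≥0∞) * H k) * ((cY : ℝ≥0∞) * H k) * (16 * (1 / 4 : ℝ≥0∞) ^ s) := by
        gcongr
    _ = (16 * (cX : ℝ≥0∞) * cY) * ((1 / 4 : ℝ≥0∞) ^ s * (H k : ℝ≥0∞) ^ 2) := by ring
    _ ≤ _ := by gcongr

theorem thin_add_null (n ℓ H : ℕ → ℕ) (h0 : n 0 = 0) (hn : ∀ k, n (k + 1) = n k + ℓ k)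
    (hℓ1 : ∀ k, 1 ≤ ℓ k) (X Y : Set ℝ) (cX cY : ℕ)
    (hX : ∀ k s : ℕ, s ≤ n (k + 1) → ∃ F : Finset ℤ, F.card ≤ cX * H k ∧ ∀ z ∈ X, ⌊z * 2 ^ s⌋ ∈ F)
    (hY : ∀ k s : ℕ, s ≤ n (k + 1) → ∃ F : Finset ℤ, F.card ≤ cY * H k ∧ ∀ z ∈ Y, ⌊z * 2 ^ s⌋ ∈ F)
    (N : Set (ℝ × ℝ)) (c : ℕ → ℕ → ℝ × ℝ) (s : ℕ → ℕ → ℕ)
    (hN : ∀ j, N ⊆ ⋃ i, Metric.closedBall (c j i) ((1 / 2 : ℝ) ^ (s j i)))
    (hsum : ∑' p : ℕ × ℕ, ((2 : ℝ≥0∞) ^ p.1 * (1 / 4 : ℝ≥0∞) ^ (s p.1 p.2)) *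
      (∑' k, if n k ≤ s p.1 p.2 then ((H k : ℝ≥0∞)) ^ 2 else 0) ≠ ∞) :
    volume ((X ×ˢ Y) + N) = 0 := by
  set TOT := ∑' p : ℕ × ℕ, ((2 : ℝ≥0∞) ^ p.1 * (1 / 4 : ℝ≥0∞) ^ (s p.1 p.2)) *
      (∑' k, if n k ≤ s p.1 p.2 then ((H k : ℝ≥0∞)) ^ 2 else 0) with hTOT
  set B := (16 * (cX : ℝ≥0∞) * cY) * TOT with hB
  have hBfin : B ≠ ∞ := by
    rw [hB]
    refine ENNReal.mul_ne_top (ENNReal.mul_ne_top (ENNReal.mul_ne_top ?_ ?_) ?_) hsum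
    · norm_num
    · exact ENNReal.natCast_ne_top _
    · exact ENNReal.natCast_ne_top _
  have hle : ∀ j : ℕ, volume ((X ×ˢ Y) + N) ≤ B * (2⁻¹ : ℝ≥0∞) ^ j := by
    intro j
    have h1 : volume ((X ×ˢ Y) + N) ≤
        ∑' i, volume ((X ×ˢ Y) + Metric.closedBall (c j i) ((1 / 2 : ℝ) ^ (s j i))) := by
      refine (measure_mono ?_).trans (measure_iUnion_le _)
      rw [← Set.add_iUnion]
      exact Set.add_subset_add_left (hN j)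
    have h2 : ∑' i, volume ((X ×ˢ Y) + Metric.closedBall (c j i) ((1 / 2 : ℝ) ^ (s j i))) ≤
        ∑' i, (16 * (cX : ℝ≥0∞) * cY) * ((1 / 4 : ℝ≥0∞) ^ (s j i) *
          ∑' k, if n k ≤ s j i then ((H k : ℝ≥0∞)) ^ 2 else 0) :=
      ENNReal.tsum_le_tsum (fun i => thin_ball_aux n ℓ H h0 hn hℓ1 X Y cX cY hX hY _ _)
    rw [ENNReal.tsum_mul_left] at h2
    set S := ∑' i, ((1 / 4 : ℝ≥0∞) ^ (s j i) *
          ∑' k, if n k ≤ s j i then ((H k : ℝ≥0∞)) ^ 2 else 0) with hS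
    have h3 : (2 : ℝ≥0∞) ^ j * S ≤ TOT := by
      rw [hS, ← ENNReal.tsum_mul_left, hTOT, ENNReal.tsum_prod
        (f := fun a b => ((2 : ℝ≥0∞) ^ a * (1 / 4 : ℝ≥0∞) ^ (s a b)) *
      (∑' k, if n k ≤ s a b then ((H k : ℝ≥0∞)) ^ 2 else 0))]
      refine le_trans (le_of_eq ?_) (ENNReal.le_tsum j)
      refine tsum_congr (fun i => ?_)
      rw [mul_assoc]
    have h4 : S ≤ TOT * (2⁻¹ : ℝ≥0∞) ^ j := by
      have h5 : S = (2 : ℝ≥0∞) ^ j * S * (2⁻¹ : ℝ≥0∞) ^ j := by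
        rw [mul_comm ((2 : ℝ≥0∞) ^ j) S, mul_assoc, ← mul_pow,
          ENNReal.mul_inv_cancel (by norm_num) (by norm_num), one_pow, mul_one]
      rw [h5]
      gcongr
    calc volume ((X ×ˢ Y) + N) ≤ (16 * (cX : ℝ≥0∞) * cY) * S := h1.trans h2
      _ ≤ (16 * (cX : ℝ≥0∞) * cY) * (TOT * (2⁻¹ : ℝ≥0∞) ^ j) := by gcongr
      _ = B * (2⁻¹ : ℝ≥0∞) ^ j := by rw [hB]; ring
  have hlim : Tendsto (fun j : ℕ => B * (2⁻¹ : ℝ≥0∞) ^ j) atTop (𝓝 (B * 0)) :=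
    ENNReal.Tendsto.const_mul
      (ENNReal.tendsto_pow_atTop_nhds_zero_of_lt_one (by norm_num)) (Or.inr hBfin)
  rw [mul_zero] at hlim
  exact le_antisymm (ge_of_tendsto' hlim hle) zero_le

end

end Pool.Agent.Helper482.NA.M_b6
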