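import Pool.Agent.Helper482.NA.Defs

set_option autoImplicit false

namespace Pool.Agent.Helper482.NA.M_c1

open Pool.Agent.Helper482.NA
open MeasureTheory Filter Set Topology
open scoped Pointwise ENNReal

noncomputable section

theorem card_avoid {α : Type} [Fintype α] [DecidableEq α] (r : ℕ) (T : Finset α) :
    (Finset.univ.filter (fun f : α → Fin (r + 1) => ∀ x ∈ T, f x ≠ 0)).card
      = r ^ T.card * (r + 1) ^ (Fintype.card α - T.card) := by
  have h : (Finset.univ.filter (fun f : α → Fin (r + 1) => ∀ x ∈ T, f x ≠ 0))
      = Fintype.piFinset (fun x => if x ∈ T then (Finset.univ.filter (fun i : Fin (r + 1) => i ≠ 0))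
          else Finset.univ) := by
    ext f
    simp only [Finset.mem_filter, Finset.mem_univ, true_and, Fintype.mem_piFinset]
    constructor
    · intro hf x
      by_cases hx : x ∈ T
      · rw [if_pos hx]
        simpa using hf x hx
      · rw [if_neg hx]
        simp
    · intro hf x hx
      have := hf x
      rw [if_pos hx] at this
      simpa using this
  have hc : (Finset.univ.filter (fun i : Fin (r + 1) => i ≠ 0)).card = r := by
    rw [Finset.filter_ne', Finset.card_erase_of_mem (Finset.mem_univ _), Finset.card_univ,
      Fintype.card_fin, Nat.add_sub_cancel]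
  rw [h, Fintype.card_piFinset]
  have h2 : ∀ x : α, (if x ∈ T then (Finset.univ.filter (fun i : Fin (r + 1) => i ≠ 0))
      else Finset.univ).card = if x ∈ T then r else r + 1 := by
    intro x
    by_cases hx : x ∈ T
    · rw [if_pos hx, if_pos hx, hc]
    · rw [if_neg hx, if_neg hx, Finset.card_univ, Fintype.card_fin]
  simp only [h2]
  rw [Finset.prod_ite, Finset.prod_const, Finset.prod_const]
  congr 2
  · congr 1
    ext x
    simp
  · have : (Finset.univ.filter (fun x => x ∉ T)) = Tᶜ := by
      ext x
      simp
    rw [this, Finset.card_compl]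

end

end Pool.Agent.Helper482.NA.M_c1
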