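import Pool.Agent.Helper482.NA.Defs

set_option autoImplicit false

namespace Pool.Agent.Helper482.NA.M_c2

open Pool.Agent.Helper482.NA
open MeasureTheory Filter Set Topology
open scoped Pointwise ENNReal

noncomputable section

theorem greedy {G : Type} [AddCommGroup G] [DecidableEq G] (P U : Finset G) (M t : ℕ)
    (hM : 1 ≤ M) (hP : P.card = M) (hU : t * M ^ 2 ≤ U.card) :
    ∃ Z : Finset G, Z ⊆ U ∧ Z.card = t ∧
      ∀ z ∈ Z, ∀ z' ∈ Z, ∀ p ∈ P, ∀ p' ∈ P, z - p = z' - p' → z = z' := by
  induction t with
  | zero => exact ⟨∅, by simp, by simp, by simp⟩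
  | succ t ih =>
    obtain ⟨Z, hZU, hZc, hZ⟩ := ih (le_trans (Nat.mul_le_mul_right _ (Nat.le_succ t)) hU)
    set bad : Finset G := (Z ×ˢ (P ×ˢ P)).image (fun w => w.1 - w.2.1 + w.2.2) with hbad
    have hcard : bad.card ≤ t * M ^ 2 := by
      refine le_trans Finset.card_image_le ?_
      rw [Finset.card_product, Finset.card_product, hZc, hP, sq]
    have hlt : bad.card < U.card := by
      have h2 : 0 < M ^ 2 := by positivity
      nlinarith
    obtain ⟨z, hzU, hzb⟩ := Finset.exists_mem_notMem_of_card_lt_card hlt
    have hPne : P.Nonempty := by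
      rw [← Finset.card_pos]; omega
    obtain ⟨p0, hp0⟩ := hPne
    have hzZ : z ∉ Z := by
      intro hz
      apply hzb
      rw [hbad, Finset.mem_image]
      exact ⟨(z, (p0, p0)), by simp [hz, hp0], by simp⟩
    refine ⟨insert z Z, ?_, ?_, ?_⟩
    · intro x hx
      rcases Finset.mem_insert.1 hx with rfl | hx
      · exact hzU
      · exact hZU hx
    · rw [Finset.card_insert_of_notMem hzZ, hZc]
    · intro a ha b hb p hp p' hp' h
      rcases Finset.mem_insert.1 ha with rfl | ha1
      · rcases Finset.mem_insert.1 hb with rfl | hb1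
        · rfl
        · exfalso
          apply hzb
          rw [hbad, Finset.mem_image]
          refine ⟨(b, (p', p)), by simp [hb1, hp, hp'], ?_⟩
          simp only
          rw [← h]; abel
      · rcases Finset.mem_insert.1 hb with rfl | hb1
        · exfalso
          apply hzb
          rw [hbad, Finset.mem_image]
          refine ⟨(a, (p, p')), by simp [ha1, hp, hp'], ?_⟩
          simp only
          rw [h]; abel
        · exact hZ a ha1 b hb1 p hp p' hp' h

end

end Pool.Agent.Helper482.NA.M_c2
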