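import Pool.Agent.Helper482.NA.Defs

set_option autoImplicit false

namespace Pool.Agent.Helper482.NA.M_c3

open Pool.Agent.Helper482.NA
open MeasureTheory Filter Set Topology
open scoped Pointwise ENNReal

noncomputable section

theorem pow_self_le (t : ℕ) : t ^ t ≤ 3 ^ t * t.factorial := by
  have h1 := Real.pow_div_factorial_le_exp (t : ℝ) (Nat.cast_nonneg t) t
  have h2 : Real.exp (t : ℝ) ≤ 3 ^ t := by
    have : Real.exp (t : ℝ) = Real.exp 1 ^ t := by rw [← Real.exp_nat_mul, mul_one]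
    rw [this]
    apply pow_le_pow_left₀ (Real.exp_pos 1).le
    have := Real.exp_one_lt_d9
    linarith
  have h3 : (0 : ℝ) < (t.factorial : ℝ) := by exact_mod_cast t.factorial_pos
  rw [div_le_iff₀ h3] at h1
  have h4 : ((t : ℝ)) ^ t ≤ 3 ^ t * (t.factorial : ℝ) :=
    h1.trans (mul_le_mul_of_nonneg_right h2 h3.le)
  exact_mod_cast h4

theorem choose_bound (L M t : ℕ) (h : L ≤ 4 * M ^ 2 * t) : L.choose t ≤ (12 * M ^ 2) ^ t := by
  have h1 : L.descFactorial t ≤ L ^ t := Nat.descFactorial_le_pow L t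
  rw [Nat.descFactorial_eq_factorial_mul_choose] at h1
  have h2 : L ^ t ≤ (4 * M ^ 2 * t) ^ t := Nat.pow_le_pow_left h t
  have h3 := pow_self_le t
  have h4 : t.factorial * L.choose t ≤ t.factorial * (12 * M ^ 2) ^ t := by
    calc t.factorial * L.choose t ≤ (4 * M ^ 2 * t) ^ t := h1.trans h2
      _ = (4 * M ^ 2) ^ t * t ^ t := by rw [mul_pow]
      _ ≤ (4 * M ^ 2) ^ t * (3 ^ t * t.factorial) := Nat.mul_le_mul_left _ h3
      _ = t.factorial * (12 * M ^ 2) ^ t := by
          rw [show 12 * M ^ 2 = (4 * M ^ 2) * 3 by ring, mul_pow (4 * M ^ 2) 3 t]; ring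
  exact Nat.le_of_mul_le_mul_left h4 t.factorial_pos

end

end Pool.Agent.Helper482.NA.M_c3
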