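import Pool.Agent.Helper482.NA.Defs

set_option autoImplicit false

namespace Pool.Agent.Helper482.NA.M_c4

open Pool.Agent.Helper482.NA
open MeasureTheory Filter Set Topology
open scoped Pointwise ENNReal

noncomputable section

theorem exists_M_aux1 (r : ℕ) : ∃ M : ℕ, 1 ≤ M ∧ 4 * (12 * M ^ 2) * r ^ M ≤ (r + 1) ^ M := by
  have hρ : |(r : ℝ) / (r + 1)| < 1 := by
    rw [abs_of_nonneg (by positivity), div_lt_one (by positivity)]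
    linarith
  have h := tendsto_pow_const_mul_const_pow_of_abs_lt_one 2 hρ
  have h2 := (h.eventually (gt_mem_nhds (show (0 : ℝ) < 1 / 48 by norm_num))).and
    (eventually_ge_atTop 1)
  obtain ⟨M, hM, hM1⟩ := h2.exists
  refine ⟨M, hM1, ?_⟩
  have h3 : (0 : ℝ) < ((r : ℝ) + 1) ^ M := by positivity
  rw [div_pow, ← mul_div_assoc, div_lt_iff₀ h3] at hM
  have h4 : (4 * (12 * (M : ℝ) ^ 2) * (r : ℝ) ^ M) ≤ ((r : ℝ) + 1) ^ M := by linarith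
  exact_mod_cast h4

theorem exists_M_aux2 (M : ℕ) : ∃ t0 : ℕ, ∀ t : ℕ, t0 ≤ t →
    2 * (2 * M ^ 2 * (t + 1)) ^ M < 4 ^ t := by
  have hρ : |(1 / 4 : ℝ)| < 1 := by rw [abs_of_nonneg (by norm_num)]; norm_num
  have h := tendsto_pow_const_mul_const_pow_of_abs_lt_one M hρ
  have hpos : (0 : ℝ) < 1 / (8 * (2 * (M : ℝ) ^ 2 + 1) ^ M) := by positivity
  obtain ⟨t0, ht0⟩ := eventually_atTop.mp (h.eventually (gt_mem_nhds hpos))
  refine ⟨t0, fun t ht => ?_⟩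
  have h1 := ht0 (t + 1) (by omega)
  have h2 : (0 : ℝ) < 8 * (2 * (M : ℝ) ^ 2 + 1) ^ M := by positivity
  rw [lt_div_iff₀ h2, one_div, inv_pow, mul_assoc, mul_comm ((4 : ℝ) ^ (t + 1))⁻¹, ← mul_assoc,
    ← div_eq_mul_inv, div_lt_one (by positivity)] at h1
  have h3 : (2 * (M : ℝ) ^ 2 * ((t : ℝ) + 1)) ^ M ≤
      ((t : ℝ) + 1) ^ M * (2 * (M : ℝ) ^ 2 + 1) ^ M := by
    rw [← mul_pow]
    apply pow_le_pow_left₀ (by positivity)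
    nlinarith
  have h4 : 2 * (2 * (M : ℝ) ^ 2 * ((t : ℝ) + 1)) ^ M < 4 ^ t := by
    push_cast at h1
    have h5 : (4 : ℝ) ^ (t + 1) = 4 * 4 ^ t := by ring
    rw [h5] at h1
    linarith
  exact_mod_cast h4

theorem exists_M (r : ℕ) (hr : 1 ≤ r) : ∃ M L0 : ℕ, 1 ≤ M ∧ 2 * M ^ 2 ≤ L0 ∧ ∀ L : ℕ, L0 ≤ L →
    2 * (L ^ M * ((12 * M ^ 2) ^ (L / (2 * M ^ 2)) * r ^ ((L / (2 * M ^ 2)) * M)))
      < (r + 1) ^ ((L / (2 * M ^ 2)) * M) := by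
  obtain ⟨M, hM1, hM⟩ := exists_M_aux1 r
  obtain ⟨t0, ht0⟩ := exists_M_aux2 M
  have hM2 : 0 < 2 * M ^ 2 := by positivity
  refine ⟨M, 2 * M ^ 2 * (t0 + 1), hM1, Nat.le_mul_of_pos_right _ (by omega), ?_⟩
  intro L hL
  obtain ⟨t, ht⟩ : ∃ t, t = L / (2 * M ^ 2) := ⟨_, rfl⟩
  rw [← ht]
  have htt : t0 ≤ t := by
    have : t0 + 1 ≤ L / (2 * M ^ 2) := by
      rw [Nat.le_div_iff_mul_le hM2, mul_comm]
      exact hL
    omega
  have hLt : L ≤ 2 * M ^ 2 * (t + 1) := by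
    rw [ht]
    exact (Nat.lt_mul_div_succ L hM2).le
  have h1 := ht0 t htt
  have h2 : 2 * L ^ M < 4 ^ t := by
    have : L ^ M ≤ (2 * M ^ 2 * (t + 1)) ^ M := Nat.pow_le_pow_left hLt M
    omega
  have hX : 0 < (12 * M ^ 2) ^ t * r ^ (t * M) := by positivity
  have h3 : 4 ^ t * ((12 * M ^ 2) ^ t * r ^ (t * M)) ≤ (r + 1) ^ (t * M) := by
    calc 4 ^ t * ((12 * M ^ 2) ^ t * r ^ (t * M)) = (4 * (12 * M ^ 2) * r ^ M) ^ t := by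
          rw [mul_pow (4 * (12 * M ^ 2)) (r ^ M) t, mul_pow 4 (12 * M ^ 2) t, ← pow_mul r M t,
            mul_comm M t, mul_assoc]
      _ ≤ ((r + 1) ^ M) ^ t := Nat.pow_le_pow_left hM t
      _ = (r + 1) ^ (t * M) := by rw [← pow_mul, mul_comm]
  calc 2 * (L ^ M * ((12 * M ^ 2) ^ t * r ^ (t * M)))
      = (2 * L ^ M) * ((12 * M ^ 2) ^ t * r ^ (t * M)) := by ring
    _ < 4 ^ t * ((12 * M ^ 2) ^ t * r ^ (t * M)) := Nat.mul_lt_mul_of_pos_right h2 hX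
    _ ≤ (r + 1) ^ (t * M) := h3

end

end Pool.Agent.Helper482.NA.M_c4
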