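import Pool.Agent.Helper482.NA.Defs

set_option autoImplicit false

namespace Pool.Agent.Helper482.NA.M_c5

open Pool.Agent.Helper482.NA
open MeasureTheory Filter Set Topology
open scoped Pointwise ENNReal

noncomputable section

theorem markov_cnt {α : Type} [Fintype α] [DecidableEq α] (r : ℕ) (x : α) :
    (r + 1) * (Finset.univ.filter (fun f : α → Fin (r + 1) => f x = 0)).card =
      (r + 1) ^ (Fintype.card α) := by
  have h1 : (Finset.univ.filter (fun f : α → Fin (r + 1) => f x = 0)) =
      Fintype.piFinset (fun y => if y = x then ({0} : Finset (Fin (r + 1))) else Finset.univ) := by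
    ext f
    rw [Finset.mem_filter, Fintype.mem_piFinset]
    constructor
    · rintro ⟨-, h⟩ y
      by_cases hy : y = x
      · rw [if_pos hy, Finset.mem_singleton, hy, h]
      · rw [if_neg hy]
        exact Finset.mem_univ _
    · intro h
      refine ⟨Finset.mem_univ _, ?_⟩
      have h2 := h x
      rw [if_pos rfl, Finset.mem_singleton] at h2
      exact h2
  have h3 : ∀ y, (if y = x then ({0} : Finset (Fin (r + 1))) else Finset.univ).card =
      if y = x then 1 else (r + 1) := by
    intro y
    split_ifs
    · exact Finset.card_singleton _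
    · rw [Finset.card_univ, Fintype.card_fin]
  rw [h1, Fintype.card_piFinset, Finset.prod_congr rfl (fun y _ => h3 y), Finset.prod_ite,
    Finset.prod_const_one, one_mul, Finset.prod_const, Finset.filter_ne',
    Finset.card_erase_of_mem (Finset.mem_univ x), Finset.card_univ, ← pow_succ']
  congr 1
  have : 0 < Fintype.card α := Fintype.card_pos_iff.2 ⟨x⟩
  omega

theorem markov {α : Type} [Fintype α] [DecidableEq α] [Nonempty α] (r : ℕ) :
    2 * (Finset.univ.filter (fun f : α → Fin (r + 1) =>
      2 * Fintype.card α < (r + 1) * (Finset.univ.filter (fun x => f x = 0)).card)).card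
      ≤ (r + 1) ^ (Fintype.card α) := by
  obtain ⟨B, hB⟩ : ∃ B, B = (Finset.univ.filter (fun f : α → Fin (r + 1) =>
      2 * Fintype.card α < (r + 1) * (Finset.univ.filter (fun x => f x = 0)).card)) := ⟨_, rfl⟩
  rw [← hB]
  have h1 : B.card * (2 * Fintype.card α) ≤
      ∑ f ∈ B, (r + 1) * (Finset.univ.filter (fun x => f x = 0)).card := by
    rw [← smul_eq_mul]
    refine Finset.card_nsmul_le_sum B _ _ fun f hf => ?_
    rw [hB, Finset.mem_filter] at hf
    exact hf.2.le
  have h2 : ∑ f ∈ B, (r + 1) * (Finset.univ.filter (fun x => f x = 0)).card ≤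
      ∑ f : α → Fin (r + 1), (r + 1) * (Finset.univ.filter (fun x => f x = 0)).card :=
    Finset.sum_le_sum_of_subset (Finset.subset_univ B)
  have h3 : ∑ f : α → Fin (r + 1), (r + 1) * (Finset.univ.filter (fun x => f x = 0)).card =
      Fintype.card α * (r + 1) ^ (Fintype.card α) := by
    have h4 : ∑ f : α → Fin (r + 1), (Finset.univ.filter (fun x => f x = 0)).card =
        ∑ x : α, (Finset.univ.filter (fun f : α → Fin (r + 1) => f x = 0)).card := by
      simp_rw [Finset.card_filter]
      exact Finset.sum_comm
    rw [← Finset.mul_sum, h4, Finset.mul_sum, Finset.sum_congr rfl (fun x _ => markov_cnt r x),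
      Finset.sum_const, Finset.card_univ, smul_eq_mul]
  have h5 : 0 < Fintype.card α := Fintype.card_pos
  have h6 : Fintype.card α * (2 * B.card) ≤
      Fintype.card α * (r + 1) ^ (Fintype.card α) := by
    calc Fintype.card α * (2 * B.card) = B.card * (2 * Fintype.card α) := by ring
      _ ≤ _ := h1.trans (h2.trans h3.le)
  exact Nat.le_of_mul_le_mul_left h6 h5

end

end Pool.Agent.Helper482.NA.M_c5
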