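import Pool.Agent.Helper482.NA.Defs
import Pool.Agent.Helper482.NA.M_c1
import Pool.Agent.Helper482.NA.M_c2
import Pool.Agent.Helper482.NA.M_c3
import Pool.Agent.Helper482.NA.M_c4
import Pool.Agent.Helper482.NA.M_c5

set_option autoImplicit false

namespace Pool.Agent.Helper482.NA.M_c6

open Pool.Agent.Helper482.NA
open Pool.Agent.Helper482.NA.M_c1
open Pool.Agent.Helper482.NA.M_c2
open Pool.Agent.Helper482.NA.M_c3
open Pool.Agent.Helper482.NA.M_c4
open Pool.Agent.Helper482.NA.M_c5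
open MeasureTheory Filter Set Topology
open scoped Pointwise ENNReal

noncomputable section

theorem bad23206 (r L M t : ℕ) [NeZero L] (hM : 1 ≤ M) (htL : t * (2 * M ^ 2) ≤ L)
    (f : ZMod L → Fin (r + 1)) (P : Finset (ZMod L)) (hP : P.card = M)
    (hlt : 2 * ((Finset.univ.filter (fun x => f x = 0)) + P).card < L) :
    ∃ Z : Finset (ZMod L), Z.card = t ∧ ((Z ×ˢ P).image (fun q => q.1 - q.2)).card = t * M ∧
      ∀ x ∈ (Z ×ˢ P).image (fun q => q.1 - q.2), f x ≠ 0 := by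
  obtain ⟨A, hA⟩ : ∃ A : Finset (ZMod L), A = Finset.univ.filter (fun x => f x = 0) := ⟨_, rfl⟩
  rw [← hA] at hlt
  have hU : t * M ^ 2 ≤ ((A + P)ᶜ).card := by
    rw [Finset.card_compl, ZMod.card]
    have h1 : t * (2 * M ^ 2) = 2 * (t * M ^ 2) := by ring
    omega
  obtain ⟨Z, hZU, hZt, hZ⟩ := greedy P ((A + P)ᶜ) M t hM hP hU
  refine ⟨Z, hZt, ?_, ?_⟩
  · rw [Finset.card_image_of_injOn, Finset.card_product, hZt, hP]
    intro q hq q' hq' he
    rw [Finset.mem_coe, Finset.mem_product] at hq hq'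
    have he' : q.1 - q.2 = q'.1 - q'.2 := he
    have h1 := hZ q.1 hq.1 q'.1 hq'.1 q.2 hq.2 q'.2 hq'.2 he'
    have h2 : q.2 = q'.2 := by
      rw [h1] at he'
      exact sub_right_injective he'
    exact Prod.ext h1 h2
  · intro x hx hfx
    rw [Finset.mem_image] at hx
    obtain ⟨q, hq, rfl⟩ := hx
    rw [Finset.mem_product] at hq
    have h1 := hZU hq.1
    rw [Finset.mem_compl] at h1
    apply h1
    rw [Finset.mem_add]
    refine ⟨q.1 - q.2, ?_, q.2, hq.2, by ring⟩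
    rw [hA, Finset.mem_filter]
    exact ⟨Finset.mem_univ _, hfx⟩

theorem count23206 (r L M t : ℕ) [NeZero L] (hM : 1 ≤ M) (htL : t * (2 * M ^ 2) ≤ L) :
    (Finset.univ.filter (fun f : ZMod L → Fin (r + 1) => ∃ P : Finset (ZMod L), P.card = M ∧
      2 * ((Finset.univ.filter (fun x => f x = 0)) + P).card < L)).card ≤
      (L.choose M * L.choose t) * (r ^ (t * M) * (r + 1) ^ (L - t * M)) := by
  classical
  obtain ⟨Av, hAv⟩ : ∃ Av : Finset (ZMod L) × Finset (ZMod L) → Finset (ZMod L → Fin (r + 1)),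
    Av = fun PZ => if ((PZ.2 ×ˢ PZ.1).image (fun q => q.1 - q.2)).card = t * M then
      Finset.univ.filter (fun f : ZMod L → Fin (r + 1) =>
        ∀ x ∈ (PZ.2 ×ˢ PZ.1).image (fun q => q.1 - q.2), f x ≠ 0) else ∅ := ⟨_, rfl⟩
  have hsub : (Finset.univ.filter (fun f : ZMod L → Fin (r + 1) => ∃ P : Finset (ZMod L),
      P.card = M ∧ 2 * ((Finset.univ.filter (fun x => f x = 0)) + P).card < L)) ⊆
      (Finset.powersetCard M (Finset.univ : Finset (ZMod L)) ×ˢ
        Finset.powersetCard t (Finset.univ : Finset (ZMod L))).biUnion Av := by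
    intro f hf
    rw [Finset.mem_filter] at hf
    obtain ⟨_, P, hP, hlt⟩ := hf
    obtain ⟨Z, hZ1, hZ2, hZ3⟩ := bad23206 r L M t hM htL f P hP hlt
    rw [Finset.mem_biUnion]
    refine ⟨(P, Z), ?_, ?_⟩
    · rw [Finset.mem_product, Finset.mem_powersetCard, Finset.mem_powersetCard]
      exact ⟨⟨Finset.subset_univ _, hP⟩, ⟨Finset.subset_univ _, hZ1⟩⟩
    · rw [hAv]
      simp only
      rw [if_pos hZ2, Finset.mem_filter]
      exact ⟨Finset.mem_univ _, hZ3⟩
  refine le_trans (Finset.card_le_card hsub) ?_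
  refine le_trans (Finset.card_biUnion_le_card_mul _ _ (r ^ (t * M) * (r + 1) ^ (L - t * M)) ?_) ?_
  · intro PZ _
    rw [hAv]
    simp only
    by_cases h : ((PZ.2 ×ˢ PZ.1).image (fun q => q.1 - q.2)).card = t * M
    · rw [if_pos h]
      have h2 := card_avoid r ((PZ.2 ×ˢ PZ.1).image (fun q => q.1 - q.2))
      rw [h, ZMod.card] at h2
      exact h2.le
    · rw [if_neg h, Finset.card_empty]
      exact Nat.zero_le _
  · apply le_of_eq
    rw [Finset.card_product, Finset.card_powersetCard, Finset.card_powersetCard,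
      Finset.card_univ, ZMod.card]

theorem random_set (r : ℕ) (hr : 1 ≤ r) : ∃ M L0 : ℕ, 1 ≤ M ∧ ∀ L : ℕ, L0 ≤ L → 1 ≤ L →
    ∃ A : Finset (ZMod L), (r + 1) * A.card ≤ 2 * L ∧
      ∀ P : Finset (ZMod L), M ≤ P.card → L ≤ 2 * (A + P).card := by
  classical
  obtain ⟨M, L0, hM, hL0, hmain⟩ := exists_M r hr
  refine ⟨M, L0, hM, ?_⟩
  intro L hL hL1
  haveI : NeZero L := ⟨by omega⟩
  obtain ⟨t, ht⟩ : ∃ t, t = L / (2 * M ^ 2) := ⟨_, rfl⟩
  have hmL := hmain L hL
  rw [← ht] at hmL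
  have hM2 : 0 < 2 * M ^ 2 := by positivity
  have htL : t * (2 * M ^ 2) ≤ L := by rw [ht]; exact Nat.div_mul_le_self _ _
  have ht1 : 1 ≤ t := by
    rw [ht]
    exact (Nat.one_le_div_iff hM2).2 (le_trans hL0 hL)
  have hLt : L ≤ 4 * M ^ 2 * t := by
    have h1 : L < (t + 1) * (2 * M ^ 2) := by
      rw [ht]
      have := Nat.lt_div_mul_add hM2 (a := L)
      calc L < L / (2 * M ^ 2) * (2 * M ^ 2) + 2 * M ^ 2 := this
        _ = (L / (2 * M ^ 2) + 1) * (2 * M ^ 2) := by ring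
    have h2 : (t + 1) * (2 * M ^ 2) ≤ (2 * t) * (2 * M ^ 2) :=
      Nat.mul_le_mul_right _ (by omega)
    calc L ≤ (2 * t) * (2 * M ^ 2) := le_trans h1.le h2
      _ = 4 * M ^ 2 * t := by ring
  have htM : t * M ≤ L := by
    refine le_trans (Nat.mul_le_mul_left t ?_) htL
    nlinarith
  obtain ⟨B1, hB1⟩ : ∃ B1 : Finset (ZMod L → Fin (r + 1)), B1 = Finset.univ.filter
      (fun f : ZMod L → Fin (r + 1) => 2 * Fintype.card (ZMod L) <
        (r + 1) * (Finset.univ.filter (fun x => f x = 0)).card) := ⟨_, rfl⟩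
  obtain ⟨B2, hB2⟩ : ∃ B2 : Finset (ZMod L → Fin (r + 1)), B2 = Finset.univ.filter
      (fun f : ZMod L → Fin (r + 1) => ∃ P : Finset (ZMod L), P.card = M ∧
      2 * ((Finset.univ.filter (fun x => f x = 0)) + P).card < L) := ⟨_, rfl⟩
  have h1 : 2 * B1.card ≤ (r + 1) ^ L := by
    have h := markov (α := ZMod L) r
    rw [← hB1] at h
    rw [ZMod.card] at h
    exact h
  have h2 : 2 * B2.card < (r + 1) ^ L := by
    have hc := count23206 r L M t hM htL
    rw [← hB2] at hc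
    have hc2 : L.choose M * L.choose t ≤ L ^ M * (12 * M ^ 2) ^ t :=
      Nat.mul_le_mul (Nat.choose_le_pow _ _) (choose_bound L M t hLt)
    have hpos : 0 < (r + 1) ^ (L - t * M) := by positivity
    calc 2 * B2.card ≤ 2 * ((L ^ M * (12 * M ^ 2) ^ t) * (r ^ (t * M) * (r + 1) ^ (L - t * M))) :=
          Nat.mul_le_mul_left 2 (le_trans hc (Nat.mul_le_mul_right _ hc2))
      _ = (2 * (L ^ M * ((12 * M ^ 2) ^ t * r ^ (t * M)))) * (r + 1) ^ (L - t * M) := by ring
      _ < (r + 1) ^ (t * M) * (r + 1) ^ (L - t * M) := Nat.mul_lt_mul_of_pos_right hmL hpos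
      _ = (r + 1) ^ L := by rw [← pow_add]; congr 1; omega
  have hex : ∃ f : ZMod L → Fin (r + 1), f ∉ B1 ∪ B2 := by
    by_contra hcon
    push Not at hcon
    have h3 : (Finset.univ : Finset (ZMod L → Fin (r + 1))) ⊆ B1 ∪ B2 := fun f _ => hcon f
    have h4 := Finset.card_le_card h3
    rw [Finset.card_univ, Fintype.card_fun, ZMod.card, Fintype.card_fin] at h4
    have h5 := Finset.card_union_le B1 B2
    omega
  obtain ⟨f, hf⟩ := hex
  rw [Finset.mem_union, not_or] at hf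
  refine ⟨Finset.univ.filter (fun x => f x = 0), ?_, ?_⟩
  · by_contra hcon
    apply hf.1
    rw [hB1, Finset.mem_filter, ZMod.card]
    exact ⟨Finset.mem_univ _, not_le.1 hcon⟩
  · intro P hP
    obtain ⟨P', hP', hP'c⟩ := Finset.exists_subset_card_eq hP
    have h6 : L ≤ 2 * ((Finset.univ.filter (fun x => f x = 0)) + P').card := by
      by_contra hcon
      apply hf.2
      rw [hB2, Finset.mem_filter]
      exact ⟨Finset.mem_univ _, P', hP'c, not_le.1 hcon⟩
    refine le_trans h6 (Nat.mul_le_mul_left 2 (Finset.card_le_card ?_))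
    exact Finset.add_subset_add_left hP'

end

end Pool.Agent.Helper482.NA.M_c6
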