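import Pool.Agent.Helper482.NA.Defs
import Pool.Agent.Helper482.NA.M_a6
import Pool.Agent.Helper482.NA.M_b1
import Pool.Agent.Helper482.NA.M_b3
import Pool.Agent.Helper482.NA.M_b5
import Pool.Agent.Helper482.NA.M_b6
import Pool.Agent.Helper482.NA.M_c6

set_option autoImplicit false

namespace Pool.Agent.Helper482.NA.M_b7

open Pool.Agent.Helper482.NA
open Pool.Agent.Helper482.NA.M_a6
open Pool.Agent.Helper482.NA.M_b1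
open Pool.Agent.Helper482.NA.M_b3
open Pool.Agent.Helper482.NA.M_b5
open Pool.Agent.Helper482.NA.M_b6
open Pool.Agent.Helper482.NA.M_c6
open MeasureTheory Filter Set Topology
open scoped Pointwise ENNReal

noncomputable section

theorem main_hv (s : ℕ → ℕ → ℕ) (hs : ∀ j, ∑' i, ((1 / 4 : ℝ≥0∞)) ^ (s j i) ≤ (1 / 4) ^ j) :
    ∑' p : ℕ × ℕ, ((2 : ℝ≥0∞) ^ p.1 * (1 / 4 : ℝ≥0∞) ^ (s p.1 p.2)) ≠ ∞ := by
  have h1 : ∑' p : ℕ × ℕ, ((2 : ℝ≥0∞) ^ p.1 * (1 / 4 : ℝ≥0∞) ^ (s p.1 p.2)) =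
      ∑' j : ℕ, ∑' i : ℕ, ((2 : ℝ≥0∞) ^ j * (1 / 4 : ℝ≥0∞) ^ (s j i)) :=
    ENNReal.tsum_prod (f := fun j i => (2 : ℝ≥0∞) ^ j * (1 / 4 : ℝ≥0∞) ^ (s j i))
  rw [h1]
  have h2 : ∑' j : ℕ, ∑' i : ℕ, ((2 : ℝ≥0∞) ^ j * (1 / 4 : ℝ≥0∞) ^ (s j i)) ≤
      ∑' j : ℕ, (1 / 2 : ℝ≥0∞) ^ j := by
    apply ENNReal.tsum_le_tsum
    intro j
    rw [ENNReal.tsum_mul_left]
    calc (2 : ℝ≥0∞) ^ j * ∑' i, (1 / 4 : ℝ≥0∞) ^ (s j i) ≤ (2 : ℝ≥0∞) ^ j * (1 / 4) ^ j := by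
          gcongr
          exact hs j
      _ = (1 / 2 : ℝ≥0∞) ^ j := by
          rw [← mul_pow]
          congr 1
          have : (4 : ℝ≥0∞) = 2 * 2 := by norm_num
          rw [this, one_div, one_div, ENNReal.mul_inv (by simp) (by simp), ← mul_assoc,
            ENNReal.mul_inv_cancel (by norm_num) (by norm_num), one_mul]
  refine ne_top_of_le_ne_top ?_ h2
  rw [ENNReal.tsum_geometric]
  rw [one_div, ENNReal.one_sub_inv_two, inv_inv]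
  norm_num

theorem main_union (X : Set ℝ) (n ℓ : ℕ → ℕ) (S : ∀ k, Finset (ZMod (2 ^ (ℓ k))))
    (hS : ∀ y ∈ X, ∀ᶠ k in atTop, ((⌊y * 2 ^ (n k + ℓ k)⌋ : ℤ) : ZMod (2 ^ (ℓ k))) ∈ S k)
    (x : ℝ) (hx : x ∈ X) : ∃ m : ℕ, x ∈ X ∧ |x| ≤ (m : ℝ) ∧
      ∀ k ≥ m, ((⌊x * 2 ^ (n k + ℓ k)⌋ : ℤ) : ZMod (2 ^ (ℓ k))) ∈ S k := by
  obtain ⟨m₁, hm₁⟩ := eventually_atTop.1 (hS x hx)
  obtain ⟨m₂, hm₂⟩ := exists_nat_ge |x|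
  refine ⟨max m₁ m₂, hx, hm₂.trans (by exact_mod_cast le_max_right _ _), ?_⟩
  intro k hk
  exact hm₁ k ((le_max_left _ _).trans hk)

theorem main (X Y : Set ℝ) (hX : NullAdditive X) (hY : NullAdditive Y) :
    NullAdditive (X ×ˢ Y) := by
  intro N hN
  choose M L0 hM hML using fun k : ℕ => random_set (2 ^ k) Nat.one_le_two_pow
  have hC : ∀ k, ∀ L : ℕ, L0 k ≤ L → 1 ≤ L → ∃ A : Finset (ZMod L), 2 ^ k * A.card ≤ 2 * L ∧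
      ∀ P : Finset (ZMod L), M k ≤ P.card → L ≤ 2 * (A + P).card := by
    intro k L h1 h2
    obtain ⟨A, hA1, hA2⟩ := hML k L h1 h2
    refine ⟨A, ?_, hA2⟩
    calc 2 ^ k * A.card ≤ (2 ^ k + 1) * A.card := Nat.mul_le_mul_right _ (Nat.le_succ _)
      _ ≤ 2 * L := hA1
  set h : ℕ → ℕ := fun k => (k + 1) * M k with hh
  set H : ℕ → ℕ := fun k => ∏ i ∈ Finset.range (k + 1), h i with hH
  have hh1 : ∀ k, 1 ≤ h k := fun k => Nat.mul_pos (Nat.succ_pos k) (hM k)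
  choose c s hc hs using fun j : ℕ => null_cover N hN ((1 / 4) ^ j) (pow_ne_zero _ (by simp))
  have hv := main_hv s hs
  obtain ⟨ℓ, n, hn0, hn, hℓ1, hℓ0, hsum⟩ := choose_levels
    (fun p : ℕ × ℕ => ((2 : ℝ≥0∞) ^ p.1 * (1 / 4 : ℝ≥0∞) ^ (s p.1 p.2)))
    (fun p => s p.1 p.2) hv H L0
  have hℓ : ∀ k, L0 k ≤ 2 ^ (ℓ k) := fun k => (hℓ0 k).trans Nat.lt_two_pow_self.le
  obtain ⟨S, hS1, hS2⟩ := slalom M L0 hM hC n ℓ hn hℓ hℓ1 X hX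
  obtain ⟨S', hS1', hS2'⟩ := slalom M L0 hM hC n ℓ hn hℓ hℓ1 Y hY
  set XX : ℕ → Set ℝ := fun m => {x | x ∈ X ∧ |x| ≤ (m : ℝ) ∧
      ∀ k ≥ m, ((⌊x * 2 ^ (n k + ℓ k)⌋ : ℤ) : ZMod (2 ^ (ℓ k))) ∈ S k} with hXX
  set YY : ℕ → Set ℝ := fun m => {x | x ∈ Y ∧ |x| ≤ (m : ℝ) ∧
      ∀ k ≥ m, ((⌊x * 2 ^ (n k + ℓ k)⌋ : ℤ) : ZMod (2 ^ (ℓ k))) ∈ S' k} with hYY
  have hXc : ∀ m, ∃ c : ℕ, ∀ k s : ℕ, s ≤ n (k + 1) → ∃ F : Finset ℤ,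
      F.card ≤ c * H k ∧ ∀ z ∈ XX m, ⌊z * 2 ^ s⌋ ∈ F := fun m =>
    count_of_slalom n ℓ hn S h hh1 hS1 (XX m) m m (fun z hz => hz.2.1) (fun z hz => hz.2.2)
  have hYc : ∀ m, ∃ c : ℕ, ∀ k s : ℕ, s ≤ n (k + 1) → ∃ F : Finset ℤ,
      F.card ≤ c * H k ∧ ∀ z ∈ YY m, ⌊z * 2 ^ s⌋ ∈ F := fun m =>
    count_of_slalom n ℓ hn S' h hh1 hS1' (YY m) m m (fun z hz => hz.2.1) (fun z hz => hz.2.2)
  have hthin : ∀ m m', volume ((XX m ×ˢ YY m') + N) = 0 := by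
    intro m m'
    obtain ⟨cX, hcX⟩ := hXc m
    obtain ⟨cY, hcY⟩ := hYc m'
    exact thin_add_null n ℓ H hn0 hn hℓ1 (XX m) (YY m') cX cY hcX hcY N c s hc hsum
  have hsub : (X ×ˢ Y) + N ⊆ ⋃ m, ⋃ m', (XX m ×ˢ YY m') + N := by
    rintro _ ⟨⟨x, y⟩, ⟨hx, hy⟩, w, hw, rfl⟩
    obtain ⟨m, hm⟩ := main_union X n ℓ S hS2 x hx
    obtain ⟨m', hm'⟩ := main_union Y n ℓ S' hS2' y hy
    rw [mem_iUnion]
    refine ⟨m, ?_⟩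
    rw [mem_iUnion]
    exact ⟨m', ⟨(x, y), ⟨hm, hm'⟩, w, hw, rfl⟩⟩
  refine measure_mono_null hsub ?_
  rw [measure_iUnion_null_iff]
  intro m
  rw [measure_iUnion_null_iff]
  intro m'
  exact hthin m m'

end

end Pool.Agent.Helper482.NA.M_b7
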